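import Pool.Agent.PPile.Defs

/-!
# Job T2: linear M. Hall completion
-/

namespace Pool.Agent.PPile

namespace LinJob

/-- An injective linear map from a subspace to a finite dimensional space extends to an automorphism. -/
lemma exists_extend_equiv {K U : Type*} [Field K] [AddCommGroup U] [Module K U]
    [FiniteDimensional K U] (V : Submodule K U) (f : V →ₗ[K] U) (hf : Function.Injective f) :
    ∃ σ : U ≃ₗ[K] U, ∀ v : V, σ v = f v := by
  obtain ⟨C, hC⟩ := V.exists_isCompl
  obtain ⟨C', hC'⟩ := (LinearMap.range f).exists_isCompl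
  have h1 : Module.finrank K C = Module.finrank K C' := by
    have a1 := Submodule.finrank_add_eq_of_isCompl hC
    have a2 := Submodule.finrank_add_eq_of_isCompl hC'
    have a3 := LinearMap.finrank_range_of_inj hf
    omega
  let ψ : C ≃ₗ[K] C' := LinearEquiv.ofFinrankEq _ _ h1
  let φ : V ≃ₗ[K] LinearMap.range f := LinearEquiv.ofInjective f hf
  refine ⟨(Submodule.prodEquivOfIsCompl V C hC).symm.trans
    ((φ.prodCongr ψ).trans (Submodule.prodEquivOfIsCompl _ C' hC')), ?_⟩
  intro v
  simp only [LinearEquiv.trans_apply]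
  rw [Submodule.prodEquivOfIsCompl_symm_apply_left]
  simp [φ]

/-- The version used below: `U` is the span of `S`. -/
lemma exists_sigma {K E : Type*} [Field K] [AddCommGroup E] [Module K E] (S : Set E)
    (U : Submodule K E) [FiniteDimensional K U] (hU : U = Submodule.span K S) (T : E →ₗ[K] E)
    (hT : Function.Injective T) :
    ∃ σ : U ≃ₗ[K] U, ∀ v : U, (v : E) ∈ S → T v ∈ S → (σ v : E) = T v := by
  let V : Submodule K U := Submodule.span K {v : U | (v : E) ∈ S ∧ T v ∈ S}
  have hV : ∀ v ∈ V, T v ∈ U := by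
    intro v hv
    induction hv using Submodule.span_induction with
    | mem x hx =>
      have h1 : T x ∈ Submodule.span K S := Submodule.subset_span hx.2
      rwa [← hU] at h1
    | zero => simp
    | add x y _ _ hx hy => simpa using U.add_mem hx hy
    | smul a x _ hx => simpa using U.smul_mem a hx
  let f : V →ₗ[K] U := LinearMap.codRestrict U (T ∘ₗ U.subtype ∘ₗ V.subtype)
    (fun v => hV v.1 v.2)
  have hf : Function.Injective f := by
    intro v w hvw
    have := congrArg (fun t : U => (t : E)) hvw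
    simp only [f, LinearMap.codRestrict_apply, LinearMap.comp_apply, Submodule.subtype_apply] at this
    exact Subtype.ext (Subtype.ext (hT this))
  obtain ⟨σ, hσ⟩ := exists_extend_equiv V f hf
  refine ⟨σ, fun v h1 h2 => ?_⟩
  have hv : v ∈ V := Submodule.subset_span ⟨h1, h2⟩
  have := hσ ⟨v, hv⟩
  simp only at this
  rw [this]
  rfl

/-- Fox derivatives. -/
lemma exists_fox (X : Type) (x : X) : ∃ D : FreeGroup X → MonoidAlgebra (ZMod 2) (FreeGroup X),
    (∀ g g', D (g * g') = D g + MonoidAlgebra.of (ZMod 2) (FreeGroup X) g * D g') ∧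
    D (FreeGroup.of x) = 1 ∧ ∀ y, y ≠ x → D (FreeGroup.of y) = 0 := by
  classical
  let R := MonoidAlgebra (ZMod 2) (FreeGroup X)
  let o : FreeGroup X →* R := MonoidAlgebra.of (ZMod 2) (FreeGroup X)
  have hoi : ∀ g, o g⁻¹ * o g = 1 := fun g => by rw [← map_mul]; simp
  have hoi' : ∀ g, o g * o g⁻¹ = 1 := fun g => by rw [← map_mul]; simp
  let m : X → R := fun y => if y = x then 1 else 0
  let A : FreeGroup X →* Equiv.Perm R := FreeGroup.lift (fun y =>
    { toFun := fun r => o (FreeGroup.of y) * r + m y
      invFun := fun r => o (FreeGroup.of y)⁻¹ * (r - m y)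
      left_inv := fun r => by
        simp only [add_sub_cancel_right]
        rw [← mul_assoc, hoi, one_mul]
      right_inv := fun r => by
        simp only
        rw [← mul_assoc, hoi', one_mul, sub_add_cancel] })
  have hA : ∀ g r, A g r = o g * r + A g 0 := by
    intro g
    have h1 : ∀ y r, A (FreeGroup.of y) r = o (FreeGroup.of y) * r + m y := fun y r => by
      simp [A]
    induction g using FreeGroup.induction_on with
    | C1 => intro r; simp
    | of y => intro r; rw [h1, h1]; simp
    | inv_of y hy =>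
      intro r
      have h2 : (A (FreeGroup.of y))⁻¹ 0 = - (o (FreeGroup.of y)⁻¹ * m y) := by
        rw [Equiv.Perm.inv_eq_iff_eq, h1, mul_neg, ← mul_assoc, hoi', one_mul, neg_add_cancel]
      rw [map_inv, Equiv.Perm.inv_eq_iff_eq, h1, h2, ← sub_eq_add_neg, mul_sub, ← mul_assoc,
        ← mul_assoc, hoi', one_mul, one_mul, sub_add_cancel]
    | mul a b ha hb =>
      intro r
      rw [map_mul, Equiv.Perm.mul_apply, Equiv.Perm.mul_apply, ha (A b r), hb r, ha (A b 0), map_mul]
      rw [mul_add, mul_assoc, add_assoc]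
  refine ⟨fun g => A g 0, ?_, ?_, ?_⟩
  · intro g g'
    show A (g * g') 0 = A g 0 + o g * A g' 0
    rw [map_mul, Equiv.Perm.mul_apply, hA g (A g' 0), add_comm]
  · simp [A, m]
  · intro y hy
    simp [A, m, hy]

/-- The path argument. -/
lemma path {X K E : Type} [Finite X] [Field K] [AddCommGroup E] [Module K E]
    (U : Submodule K E) (σ : X → (U ≃ₗ[K] U)) (ρ : FreeGroup X →* (Module.Dual K U ≃ₗ[K] Module.Dual K U))
    (hρ : ∀ x l v, ρ (FreeGroup.of x) l v = l (σ x v))
    (d : FreeGroup X → Module.Dual K U) (hd : ∀ g g', d (g * g') = d g + ρ g (d g'))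
    (ℓ : X → (E →ₗ[K] K)) (hℓ : ∀ x, ∀ v : U, ℓ x v = d (FreeGroup.of x) v)
    (R : Type) [Ring R] [Module K R] (o : FreeGroup X →* R) (A : R →ₗ[K] E)
    (D : X → FreeGroup X → R) (hD : ∀ x g g', D x (g * g') = D x g + o g * D x g')
    (hD1 : ∀ x, D x (FreeGroup.of x) = 1) (hD0 : ∀ x y, y ≠ x → D x (FreeGroup.of y) = 0)
    (P : ℕ → FreeGroup X) (hP0 : P 0 = 1) (n : ℕ)
    (u : ℕ → U) (hu : ∀ i, (u i : E) = A (o (P i)))
    (hP : ∀ i < n, (∃ x, P (i + 1) = P i * FreeGroup.of x ∧ σ x (u i) = u (i + 1)) ∨
      ∃ x, P i = P (i + 1) * FreeGroup.of x ∧ σ x (u (i + 1)) = u i) :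
    ∀ i ≤ n, (∀ l, ρ (P i) l (u 0) = l (u i)) ∧
      d (P i) (u 0) = ∑ᶠ x, ℓ x (A (D x (P i))) := by
  classical
  have := Fintype.ofFinite X
  simp only [finsum_eq_sum_of_fintype]
  have hd1 : d 1 = 0 := by
    have := hd 1 1
    rw [mul_one, map_one] at this
    simpa using this
  have hD1' : ∀ x, D x 1 = 0 := by
    intro x
    have := hD x 1 1
    rw [mul_one, map_one, one_mul] at this
    simpa using this
  -- the general step
  have hstep : ∀ (g : FreeGroup X) (x : X) (v : U), (v : E) = A (o g) →
      ∑ y, ℓ y (A (D y (g * FreeGroup.of x))) =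
        ∑ y, ℓ y (A (D y g)) + d (FreeGroup.of x) v := by
    intro g x v hv
    have h1 : ∀ y, ℓ y (A (D y (g * FreeGroup.of x))) =
        ℓ y (A (D y g)) + if y = x then d (FreeGroup.of x) v else 0 := by
      intro y
      rw [hD, map_add, map_add]
      congr 1
      by_cases hyx : y = x
      · subst hyx
        rw [hD1, mul_one, if_pos rfl, ← hℓ, hv]
      · rw [hD0 y x (fun h => hyx h.symm), mul_zero, map_zero, map_zero, if_neg hyx]
    simp only [h1, Finset.sum_add_distrib]
    simp
  intro i
  induction i with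
  | zero =>
    intro _
    refine ⟨fun l => ?_, ?_⟩
    · rw [hP0, map_one]; rfl
    · rw [hP0, hd1]
      simp [hD1']
  | succ i ih =>
    intro hi
    obtain ⟨ih1, ih2⟩ := ih (by omega)
    rcases hP i (by omega) with ⟨x, h1, h2⟩ | ⟨x, h1, h2⟩
    · refine ⟨fun l => ?_, ?_⟩
      · rw [h1, map_mul, LinearEquiv.mul_apply, ih1, hρ, h2]
      · rw [h1, hd, LinearMap.add_apply, ih1, ih2, hstep (P i) x (u i) (hu i)]
    · have ih1' : ∀ l, ρ (P (i + 1)) l (u 0) = l (u (i + 1)) := by
        intro l
        have e1 : ρ (FreeGroup.of x) ((ρ (FreeGroup.of x))⁻¹ l) = l := by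
          rw [← LinearEquiv.mul_apply, mul_inv_cancel]; rfl
        have h3 := ih1 ((ρ (FreeGroup.of x))⁻¹ l)
        rw [h1, map_mul, LinearEquiv.mul_apply, e1, ← h2, ← hρ, e1] at h3
        exact h3
      refine ⟨ih1', ?_⟩
      have h4 := ih2
      rw [h1, hd, LinearMap.add_apply, ih1', hstep (P (i + 1)) x (u (i + 1)) (hu (i + 1))] at h4
      exact add_right_cancel h4

end LinJob

open LinJob in
theorem target_Linear : TLinear := by
  classical
  intro X β _ _ _ h hyp b
  have := Fintype.ofFinite X
  have := Fintype.ofFinite β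
  let R := MonoidAlgebra (ZMod 2) (FreeGroup X)
  let o : FreeGroup X →* R := MonoidAlgebra.of (ZMod 2) (FreeGroup X)
  by_contra hcon
  -- the values of derivations
  let J : Submodule (ZMod 2) (β → R) :=
    { carrier := {u | ∃ D : FreeGroup X → R, (∀ g g', D (g * g') = D g + o g * D g') ∧
        ∀ c, u c = D (h c)}
      add_mem' := by
        rintro u v ⟨D, hD, hu⟩ ⟨D', hD', hv⟩
        refine ⟨fun g => D g + D' g, fun g g' => ?_, fun c => ?_⟩
        · simp only [hD, hD', mul_add]; abel
        · rw [Pi.add_apply, hu, hv]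
      zero_mem' := ⟨fun _ => 0, by simp, by simp⟩
      smul_mem' := by
        rintro a u ⟨D, hD, hu⟩
        refine ⟨fun g => a • D g, fun g g' => ?_, fun c => ?_⟩
        · simp only [hD, smul_add, mul_smul_comm]
        · rw [Pi.smul_apply, hu] }
  have hJ : (Pi.single b 1 : β → R) ∉ J := by
    rintro ⟨D, hD, hu⟩
    apply hcon
    refine ⟨D, hD, fun c => ?_⟩
    rw [← hu c]
    by_cases hcb : c = b
    · subst hcb; simp
    · simp [hcb]
  obtain ⟨lam, hlam, hlamJ⟩ := Submodule.exists_dual_map_eq_bot_of_notMem hJ inferInstance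
  have hlamJ' : ∀ u ∈ J, lam u = 0 := by
    intro u hu
    have : lam u ∈ J.map lam := Submodule.mem_map_of_mem hu
    rw [hlamJ] at this
    exact (Submodule.mem_bot _).1 this
  -- the space of functions
  let E := FreeGroup X → ZMod 2
  let A : β → (R →ₗ[ZMod 2] E) := fun c =>
    LinearMap.pi (fun g => lam ∘ₗ (LinearMap.single (ZMod 2) (fun _ : β => R) c) ∘ₗ
      (LinearMap.mulRight (ZMod 2) (o g)))
  have hA : ∀ c r g, A c r g = lam (Pi.single c (r * o g)) := fun c r g => rfl
  let T : X → (E →ₗ[ZMod 2] E) := fun x => LinearMap.funLeft (ZMod 2) (ZMod 2)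
    (fun g => FreeGroup.of x * g)
  have hT : ∀ x φ g, T x φ g = φ (FreeGroup.of x * g) := fun x φ g => rfl
  have hTinj : ∀ x, Function.Injective (T x) := by
    intro x
    apply LinearMap.funLeft_injective_of_surjective
    intro g
    exact ⟨(FreeGroup.of x)⁻¹ * g, by simp⟩
  have hTA : ∀ x c g, T x (A c (o g)) = A c (o (g * FreeGroup.of x)) := by
    intro x c g
    ext g'
    rw [hT, hA, hA, map_mul, map_mul, mul_assoc]
  -- words
  let W : β → List (X × Bool) := fun c => (h c).toWord
  let P : β → ℕ → FreeGroup X := fun c i => FreeGroup.mk ((W c).take i)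
  let S : Set E := Set.range (fun p : Σ c : β, Fin ((W c).length + 1) => A p.1 (o (P p.1 p.2)))
  have hS : ∀ c i, A c (o (P c i)) ∈ S := by
    intro c i
    by_cases hi : i ≤ (W c).length
    · exact ⟨⟨c, ⟨i, by omega⟩⟩, rfl⟩
    · refine ⟨⟨c, ⟨(W c).length, by omega⟩⟩, ?_⟩
      have : (W c).take i = (W c).take (W c).length := by
        rw [List.take_length, List.take_of_length_le (by omega)]
      simp only [P, this]
  let U : Submodule (ZMod 2) E := Submodule.span (ZMod 2) S
  have hfd : FiniteDimensional (ZMod 2) U := FiniteDimensional.span_of_finite _ (Set.finite_range _)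
  choose σ hσ using fun x => exists_sigma S U rfl (T x) (hTinj x)
  let ρ' : FreeGroup X →* (Module.Dual (ZMod 2) U ≃ₗ[ZMod 2] Module.Dual (ZMod 2) U) :=
    FreeGroup.lift (fun x => (σ x).dualMap)
  have hρ' : ∀ x l v, ρ' (FreeGroup.of x) l v = l (σ x v) := by
    intro x l v
    simp [ρ']
  let Φ := (Module.finBasis (ZMod 2) (Module.Dual (ZMod 2) U)).equivFun
  let k := Module.finrank (ZMod 2) (Module.Dual (ZMod 2) U)
  let ρ : FreeGroup X →* ((Fin k → ZMod 2) ≃ₗ[ZMod 2] (Fin k → ZMod 2)) :=
    { toFun := fun g => Φ.symm.trans ((ρ' g).trans Φ)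
      map_one' := by ext v; simp
      map_mul' := by
        intro g g'
        apply LinearEquiv.ext
        intro v
        simp }
  -- the vector e_b
  let u : β → ℕ → U := fun c i => ⟨A c (o (P c i)), Submodule.subset_span (hS c i)⟩
  have hub : u b 0 ≠ 0 := by
    intro h0
    have h1 : A b (o (P b 0)) = 0 := congrArg (fun t : U => (t : E)) h0
    have h2 := congrFun h1 1
    rw [hA] at h2
    apply hlam
    have h3 : o (P b 0) * o 1 = 1 := by simp [P, ← FreeGroup.one_eq_mk]
    rw [h3] at h2
    exact h2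
  obtain ⟨ν₀, hν₀⟩ : ∃ ν₀ : Module.Dual (ZMod 2) U, ν₀ (u b 0) ≠ 0 := by
    by_contra hall
    push Not at hall
    exact hub ((Module.forall_dual_apply_eq_zero_iff (ZMod 2) _).1 hall)
  obtain ⟨d, hd, hdh⟩ := hyp k ρ (fun c => if c = b then Φ ν₀ else 0)
  let d' : FreeGroup X → Module.Dual (ZMod 2) U := fun g => Φ.symm (d g)
  have hd' : ∀ g g', d' (g * g') = d' g + ρ' g (d' g') := by
    intro g g'
    simp only [d', hd, map_add]
    congr 1
    simp [ρ]
  have hdh' : ∀ c, d' (h c) = if c = b then ν₀ else 0 := by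
    intro c
    simp only [d', hdh]
    split_ifs <;> simp
  choose D hD hD1 hD0 using fun x => exists_fox X x
  choose ℓ hℓ using fun x => LinearMap.exists_extend (d' (FreeGroup.of x))
  have hℓ' : ∀ x, ∀ v : U, ℓ x v = d' (FreeGroup.of x) v := by
    intro x v
    rw [← hℓ x]
    rfl
  have key : ∀ c, d' (h c) (u c 0) = ∑ᶠ x, ℓ x (A c (D x (h c))) := by
    intro c
    have h1 := path U σ ρ' hρ' d' hd' ℓ hℓ' R o (A c) D hD hD1 hD0 (P c)
      (by simp [P, ← FreeGroup.one_eq_mk]) (W c).length
      (u c) (fun i => rfl) (by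
        intro i hi
        have h2 : (W c).take (i + 1) = (W c).take i ++ [(W c)[i]] := by
          rw [List.take_append_getElem]
        have h3 : P c (i + 1) = P c i * FreeGroup.mk [(W c)[i]] := by
          simp only [P, h2]
          rw [FreeGroup.mul_mk]
        generalize (W c)[i] = xe at h3
        obtain ⟨x, e⟩ := xe
        cases e with
        | true =>
          left
          refine ⟨x, h3, ?_⟩
          apply Subtype.ext
          have h4 : T x (u c i) = (u c (i + 1) : E) := by
            simp only [u]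
            rw [hTA, h3]
            rfl
          rw [hσ x (u c i) (hS c i) (by rw [h4]; exact hS c (i + 1)), h4]
        | false =>
          right
          have h5 : P c i = P c (i + 1) * FreeGroup.of x := by
            rw [h3, mul_assoc]
            have : FreeGroup.mk [(x, false)] * FreeGroup.of x = 1 := by
              have h6 : (FreeGroup.of x)⁻¹ = FreeGroup.mk [(x, false)] := rfl
              rw [← h6, inv_mul_cancel]
            rw [this, mul_one]
          refine ⟨x, h5, ?_⟩
          apply Subtype.ext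
          have h4 : T x (u c (i + 1)) = (u c i : E) := by
            simp only [u]
            rw [hTA, ← h5]
          rw [hσ x (u c (i + 1)) (hS c (i + 1)) (by rw [h4]; exact hS c i), h4])
      (W c).length le_rfl
    have h2 : P c (W c).length = h c := by
      simp only [P, List.take_length, W]
      exact FreeGroup.mk_toWord
    rw [h2] at h1
    exact h1.2
  have hsum : ∑ c, d' (h c) (u c 0) = ν₀ (u b 0) := by
    rw [Finset.sum_eq_single b]
    · rw [hdh', if_pos rfl]
    · intro c _ hcb
      rw [hdh', if_neg hcb]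
      rfl
    · intro hb
      exact absurd (Finset.mem_univ b) hb
  apply hν₀
  rw [← hsum]
  simp only [key, finsum_eq_sum_of_fintype]
  rw [Finset.sum_comm]
  apply Finset.sum_eq_zero
  intro x _
  rw [← map_sum]
  have : ∑ c, A c (D x (h c)) = 0 := by
    ext g
    rw [Finset.sum_apply, Pi.zero_apply]
    simp only [hA]
    rw [← map_sum]
    apply hlamJ'
    refine ⟨fun g' => D x g' * o g, fun g1 g2 => ?_, fun c => ?_⟩
    · show D x (g1 * g2) * o g = D x g1 * o g + o g1 * (D x g2 * o g)
      rw [hD, add_mul, mul_assoc]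
    · rw [Finset.sum_apply]
      simp
  rw [this, map_zero]

end Pool.Agent.PPile
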