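import Pool.Agent.PPile.Wh2
import Pool.Agent.PPile.Linear

/-!
# The abstract part: relative extension property implies free factor
-/

namespace Pool.Agent.PPile

universe u a b w1 w2

/-- The relative extension property of `H ≤ F` for split extensions of finite groups. -/
def ExtHom {F : Type u} [Group F] (H : Subgroup F) : Prop :=
  ∀ (A N : Type) [Group A] [Finite A] [Group N] [Finite N] (θ : A →* MulAut N)
    (φ : F →* A) (lam : H →* N ⋊[θ] A), (∀ h, (lam h).right = φ h) →
    ∃ γ : F →* N ⋊[θ] A, (∀ g, (γ g).right = φ g) ∧ ∀ h : H, γ h = lam h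

/-- Free factor, in terms of a basis. -/
def FF {F : Type u} [Group F] (H : Subgroup F) : Prop :=
  ∃ (Y : Type w1) (Z : Type w2) (e : FreeGroup (Y ⊕ Z) ≃* F),
    H = (FreeGroup.map (Sum.inl : Y → Y ⊕ Z)).range.map e.toMonoidHom

section FF

variable {F : Type u} [Group F]

theorem FF.isFreeFactor {H : Subgroup F} (h : FF.{u, w1, w2} H) : IsFreeFactor H := by
  classical
  obtain ⟨Y, Z, e, rfl⟩ := h
  refine ⟨(FreeGroup.map (Sum.inr : Z → Y ⊕ Z)).range.map e.toMonoidHom, ?_⟩
  set H := (FreeGroup.map (Sum.inl : Y → Y ⊕ Z)).range.map e.toMonoidHom with hH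
  set K := (FreeGroup.map (Sum.inr : Z → Y ⊕ Z)).range.map e.toMonoidHom with hK
  let iH : FreeGroup Y →* H :=
    ((e.toMonoidHom.comp (FreeGroup.map (Sum.inl : Y → Y ⊕ Z))).codRestrict H
      (fun x => ⟨_, ⟨x, rfl⟩, rfl⟩))
  let iK : FreeGroup Z →* K :=
    ((e.toMonoidHom.comp (FreeGroup.map (Sum.inr : Z → Y ⊕ Z))).codRestrict K
      (fun x => ⟨_, ⟨x, rfl⟩, rfl⟩))
  have iHs : Function.Surjective iH := by
    rintro ⟨_, _, ⟨x, rfl⟩, rfl⟩
    exact ⟨x, rfl⟩
  have iKs : Function.Surjective iK := by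
    rintro ⟨_, _, ⟨x, rfl⟩, rfl⟩
    exact ⟨x, rfl⟩
  let inv0 : FreeGroup (Y ⊕ Z) →* Monoid.Coprod H K :=
    FreeGroup.lift (Sum.elim (fun y => Monoid.Coprod.inl (iH (FreeGroup.of y)))
      (fun z => Monoid.Coprod.inr (iK (FreeGroup.of z))))
  let inv : F →* Monoid.Coprod H K := inv0.comp e.symm.toMonoidHom
  have h1 : inv.comp (Monoid.Coprod.lift H.subtype K.subtype) = MonoidHom.id _ := by
    apply Monoid.Coprod.hom_ext
    · ext h
      obtain ⟨x, rfl⟩ := iHs h
      have : (inv.comp (Monoid.Coprod.lift H.subtype K.subtype)).comp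
          ((Monoid.Coprod.inl).comp iH) = (Monoid.Coprod.inl).comp iH := by
        ext y
        simp [inv, inv0, iH]
      exact DFunLike.congr_fun this x
    · ext h
      obtain ⟨x, rfl⟩ := iKs h
      have : (inv.comp (Monoid.Coprod.lift H.subtype K.subtype)).comp
          ((Monoid.Coprod.inr).comp iK) = (Monoid.Coprod.inr).comp iK := by
        ext y
        simp [inv, inv0, iK]
      exact DFunLike.congr_fun this x
  have h2 : (Monoid.Coprod.lift H.subtype K.subtype).comp inv = MonoidHom.id _ := by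
    have h3 : ((Monoid.Coprod.lift H.subtype K.subtype).comp inv0) = e.toMonoidHom := by
      ext z
      cases z <;> simp [inv0, iH, iK]
    ext g
    have := DFunLike.congr_fun h3 (e.symm g)
    simpa [inv] using this
  refine ⟨?_, ?_⟩
  · intro a b hab
    have h3 := congrArg inv hab
    have h4 := DFunLike.congr_fun h1 a
    have h5 := DFunLike.congr_fun h1 b
    simp only [MonoidHom.comp_apply, MonoidHom.id_apply] at h4 h5
    rw [← h4, h3, h5]
  · intro g
    exact ⟨inv g, DFunLike.congr_fun h2 g⟩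

/-- The top subgroup of a free group is a free factor. -/
theorem FF_top (X : Type u) : FF.{u, u, u} (⊤ : Subgroup (FreeGroup X)) := by
  refine ⟨X, PEmpty, FreeGroup.freeGroupCongr (Equiv.sumEmpty X PEmpty), ?_⟩
  symm
  rw [eq_top_iff]
  rintro g -
  refine ⟨FreeGroup.map Sum.inl g, ⟨g, rfl⟩, ?_⟩
  have : ((FreeGroup.freeGroupCongr (Equiv.sumEmpty X PEmpty.{u + 1})).toMonoidHom.comp
      (FreeGroup.map Sum.inl)) = MonoidHom.id _ := by
    ext x
    simp
  exact DFunLike.congr_fun this g

variable {X1 : Type a} {X2 : Type b}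

omit [Group F] in
theorem fg_map {F : Type*} {F' : Type*} [Group F] [Group F'] (f : F →* F') {H : Subgroup F}
    (h : H.FG) : (H.map f).FG := by
  classical
  obtain ⟨S, rfl⟩ := h
  refine ⟨S.image f, ?_⟩
  rw [MonoidHom.map_closure, Finset.coe_image]

/-- Passing from `H` to a smaller free factor containing it. -/
theorem reduce (ψ : F ≃* FreeGroup (X1 ⊕ X2)) (H : Subgroup F) (H1 : Subgroup (FreeGroup X1))
    (hH : H.map ψ.toMonoidHom = H1.map (FreeGroup.map Sum.inl)) :
    (ExtHom H → ExtHom H1) ∧ (H.FG → H1.FG) ∧ (FF.{a, w1, w2} H1 → FF.{u, w1, max w2 b} H) := by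
  let j : FreeGroup X1 →* FreeGroup (X1 ⊕ X2) := FreeGroup.map Sum.inl
  let r : FreeGroup (X1 ⊕ X2) →* FreeGroup X1 :=
    FreeGroup.lift (Sum.elim FreeGroup.of (fun _ => 1))
  have hrj : r.comp j = MonoidHom.id _ := by
    ext x
    simp [r, j]
  have hrj' : ∀ x, r (j x) = x := fun x => DFunLike.congr_fun hrj x
  have hH1 : H1 = (H.map ψ.toMonoidHom).map r := by
    rw [hH, Subgroup.map_map]
    change H1 = Subgroup.map (r.comp j) H1
    rw [hrj, Subgroup.map_id]
  refine ⟨?_, ?_, ?_⟩
  · intro hE A N _ _ _ _ θ φ lam hlam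
    have hmem : ∀ h : H, r (ψ h) ∈ H1 := by
      intro h
      rw [hH1]
      exact ⟨ψ h, ⟨h, h.2, rfl⟩, rfl⟩
    let rH : H →* H1 := ((r.comp ψ.toMonoidHom).comp H.subtype).codRestrict H1 hmem
    obtain ⟨γ, h1, h2⟩ := hE A N θ ((φ.comp r).comp ψ.toMonoidHom) (lam.comp rH) (by
      intro h
      simp only [MonoidHom.comp_apply, hlam]
      rfl)
    refine ⟨(γ.comp ψ.symm.toMonoidHom).comp j, ?_, ?_⟩
    · intro g
      simp only [MonoidHom.comp_apply, h1]
      simp [hrj']
    · intro h
      have h3 : j h ∈ H.map ψ.toMonoidHom := by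
        rw [hH]
        exact ⟨h, h.2, rfl⟩
      obtain ⟨h', hh', he⟩ := h3
      have h4 : ψ.symm (j h) = h' := by
        rw [← he]
        simp
      have h5 := h2 ⟨h', hh'⟩
      have h6 : rH ⟨h', hh'⟩ = h := by
        apply Subtype.ext
        change r (ψ h') = h
        have : ψ h' = j h := he
        rw [this, hrj']
      simp only [MonoidHom.comp_apply] at h5 ⊢
      rw [h6] at h5
      rw [← h5]
      exact congrArg γ h4
  · intro hF
    rw [hH1]
    exact fg_map _ (fg_map _ hF)
  · rintro ⟨Y, Z, e1, he1⟩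
    let f1 : FreeGroup (Y ⊕ (Z ⊕ X2)) →* FreeGroup (X1 ⊕ X2) :=
      FreeGroup.lift (Sum.elim (fun y => j (e1 (FreeGroup.of (Sum.inl y))))
        (Sum.elim (fun z => j (e1 (FreeGroup.of (Sum.inr z)))) (fun x => FreeGroup.of (Sum.inr x))))
    let k : FreeGroup (Y ⊕ Z) →* FreeGroup (Y ⊕ (Z ⊕ X2)) :=
      FreeGroup.lift (Sum.elim (fun y => FreeGroup.of (Sum.inl y))
        (fun z => FreeGroup.of (Sum.inr (Sum.inl z))))
    let f2 : FreeGroup (X1 ⊕ X2) →* FreeGroup (Y ⊕ (Z ⊕ X2)) :=
      FreeGroup.lift (Sum.elim (fun x => k (e1.symm (FreeGroup.of x)))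
        (fun x => FreeGroup.of (Sum.inr (Sum.inr x))))
    have hf1k : f1.comp k = j.comp e1.toMonoidHom := by
      ext x
      cases x <;> simp [f1, k]
    have hf2j : f2.comp j = k.comp e1.symm.toMonoidHom := by
      ext x
      simp [f2, j]
    have h12 : f1.comp f2 = MonoidHom.id _ := by
      ext x
      cases x with
      | inl x =>
        have := DFunLike.congr_fun hf1k (e1.symm (FreeGroup.of x))
        simp only [MonoidHom.comp_apply] at this
        simpa [f2, j] using this
      | inr x => simp [f1, f2]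
    have h21 : f2.comp f1 = MonoidHom.id _ := by
      ext x
      rcases x with y | z | x
      · have := DFunLike.congr_fun hf2j (e1 (FreeGroup.of (Sum.inl y)))
        simp only [MonoidHom.comp_apply] at this
        simpa [f1, k] using this
      · have := DFunLike.congr_fun hf2j (e1 (FreeGroup.of (Sum.inr z)))
        simp only [MonoidHom.comp_apply] at this
        simpa [f1, k] using this
      · simp [f1, f2]
    let E : FreeGroup (Y ⊕ (Z ⊕ X2)) ≃* FreeGroup (X1 ⊕ X2) := MonoidHom.toMulEquiv f1 f2 h21 h12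
    refine ⟨Y, Z ⊕ X2, E.trans ψ.symm, ?_⟩
    have h7 : H = (H.map ψ.toMonoidHom).map ψ.symm.toMonoidHom := by
      rw [Subgroup.map_map]
      have : ψ.symm.toMonoidHom.comp ψ.toMonoidHom = MonoidHom.id _ := by
        ext x
        simp
      rw [this, Subgroup.map_id]
    have h8 : H1.map j =
        (FreeGroup.map (Sum.inl : Y → Y ⊕ (Z ⊕ X2))).range.map E.toMonoidHom := by
      rw [he1, MonoidHom.map_range, MonoidHom.map_range, MonoidHom.map_range]
      congr 1
      ext y
      simp [E, f1]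
    rw [h7, hH]
    change (H1.map j).map ψ.symm.toMonoidHom = _
    rw [h8, Subgroup.map_map]
    rfl

end FF

/-! ### Finite rank of finitely generated free groups -/

theorem finite_of_fg {β : Type*} (h : Group.FG (FreeGroup β)) : Finite β := by
  classical
  -- homomorphisms to `ℤ/2` are determined on a finite generating set
  obtain ⟨S, hS, hfin⟩ := Group.fg_iff.1 h
  have hinj : Function.Injective (fun (φ : FreeGroup β →* Multiplicative (ZMod 2)) (s : S) =>
      φ s) := by
    intro φ ψ hφ
    apply MonoidHom.eq_of_eqOn_dense hS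
    intro s hs
    exact congrFun hφ ⟨s, hs⟩
  haveI : Finite S := hfin
  haveI : Finite (Multiplicative (ZMod 2)) := inferInstanceAs (Finite (ZMod 2))
  haveI : Finite (FreeGroup β →* Multiplicative (ZMod 2)) := Finite.of_injective _ hinj
  haveI : Finite (β → Multiplicative (ZMod 2)) := Finite.of_equiv _ FreeGroup.lift.symm
  by_contra hinf
  rw [not_finite_iff_infinite] at hinf
  haveI : Nontrivial (Multiplicative (ZMod 2)) := inferInstanceAs (Nontrivial (ZMod 2))
  exact (Function.infinite_of_left (ι := β) (π := Multiplicative (ZMod 2))).not_finite inferInstance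

end Pool.Agent.PPile
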