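import Pool.Agent.PPile.Abs

/-!
# The abstract part, II
-/

namespace Pool.Agent.PPile

universe u

open MonoidAlgebra in
theorem main_step (X : Type) [Finite X] (H : Subgroup (FreeGroup X)) (hFG : H.FG)
    (hE : ExtHom H) :
    H = ⊤ ∨ ∃ (ψ : FreeGroup X ≃* FreeGroup X) (x : X),
      H.map ψ.toMonoidHom ≤ Subgroup.closure (FreeGroup.of '' {y | y ≠ x}) := by
  classical
  obtain ⟨β, ⟨b⟩⟩ := IsFreeGroup.nonempty_basis (G := H)
  have hβ : Finite β := finite_of_fg (by
    have : Group.FG H := (Group.fg_iff_subgroup_fg H).2 hFG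
    exact Group.fg_of_surjective (f := b.repr.toMonoidHom) b.repr.surjective)
  have := Fintype.ofFinite β
  let h : β → FreeGroup X := fun i => (b i : FreeGroup X)
  have hgen : ∀ g : H, ∀ S : Subgroup H, (∀ i, b i ∈ S) → g ∈ S := by
    intro g S hS
    have h1 : ∀ w : FreeGroup β, b.repr.symm w ∈ S := by
      intro w
      induction w using FreeGroup.induction_on with
      | C1 => simp [S.one_mem]
      | of i => exact hS i
      | inv_of i hi => rw [map_inv]; exact S.inv_mem hi
      | mul x y hx hy => rw [map_mul]; exact S.mul_mem hx hy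
    have := h1 (b.repr g)
    simpa using this
  -- derivations
  have hder := target_Linear X β h (by
    intro k ρ ν
    let A := ((Fin k → ZMod 2) ≃ₗ[ZMod 2] (Fin k → ZMod 2))
    let N := Multiplicative (Fin k → ZMod 2)
    have : Finite A := Finite.of_injective (fun e : A => (e : (Fin k → ZMod 2) → (Fin k → ZMod 2)))
      DFunLike.coe_injective
    have : Finite N := inferInstanceAs (Finite (Fin k → ZMod 2))
    let θ : A →* MulAut N :=
      { toFun := fun e => AddEquiv.toMultiplicative e.toAddEquiv
        map_one' := by ext; rfl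
        map_mul' := by intro e e'; ext; rfl }
    let lam : H →* N ⋊[θ] A := b.lift (fun i => ⟨Multiplicative.ofAdd (ν i), ρ (h i)⟩)
    have hlb : ∀ i, lam (b i) = ⟨Multiplicative.ofAdd (ν i), ρ (h i)⟩ := by
      intro i
      exact congrFun (b.lift.symm_apply_apply
        (fun i => (⟨Multiplicative.ofAdd (ν i), ρ (h i)⟩ : N ⋊[θ] A))) i
    have hlam : ∀ g, (lam g).right = ρ g := by
      have : SemidirectProduct.rightHom.comp lam = ρ.comp H.subtype := by
        apply b.ext_hom
        intro i
        simp [hlb, h]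
      intro g
      exact DFunLike.congr_fun this g
    obtain ⟨γ, h1, h2⟩ := hE A N θ ρ lam hlam
    refine ⟨fun g => Multiplicative.toAdd (γ g).left, ?_, ?_⟩
    · intro g g'
      change Multiplicative.toAdd (γ (g * g')).left = _
      rw [map_mul, SemidirectProduct.mul_left, h1]
      rfl
    · intro i
      have h3 := h2 (b i)
      change Multiplicative.toAdd (γ (b i : FreeGroup X)).left = ν i
      rw [h3, hlb]
      rfl)
  choose Db hDb1 hDb2 using hder
  let R := MonoidAlgebra (ZMod 2) (FreeGroup X)
  let o : FreeGroup X →* R := MonoidAlgebra.of (ZMod 2) (FreeGroup X)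
  let D : FreeGroup X → R := fun g => ∑ i, Db i g * (o (h i) - 1)
  let D' : FreeGroup X → R := fun g => (o g - 1) - D g
  have hD : ∀ g g', D (g * g') = D g + o g * D g' := by
    intro g g'
    simp only [D]
    rw [Finset.mul_sum, ← Finset.sum_add_distrib]
    refine Finset.sum_congr rfl fun i _ => ?_
    rw [hDb1, add_mul, mul_assoc]
  have hD' : ∀ g g', D' (g * g') = D' g + o g * D' g' := by
    intro g g'
    simp only [D', hD, map_mul, mul_sub, mul_one]
    abel
  have hD'1 : D' 1 = 0 := by
    have := hD' 1 1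
    rw [mul_one, map_one, one_mul] at this
    exact (left_eq_add.1 this)
  have hD'inv : ∀ g, D' g = 0 → D' g⁻¹ = 0 := by
    intro g hg
    have := hD' g⁻¹ g
    rw [inv_mul_cancel, hD'1, hg, mul_zero, add_zero] at this
    exact this.symm
  have hDh : ∀ c, D (h c) = o (h c) - 1 := by
    intro c
    simp only [D, hDb2]
    rw [Finset.sum_eq_single c]
    · simp
    · intro i _ hi
      rw [if_neg (Ne.symm hi), zero_mul]
    · simp
  have hD'H : ∀ g ∈ H, D' g = 0 := by
    let S : Subgroup H :=
      { carrier := {g | D' g = 0}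
        mul_mem' := by
          intro g g' hg hg'
          simp only [Set.mem_ofPred_eq, Subgroup.coe_mul] at *
          rw [hD', hg, hg', mul_zero, add_zero]
        one_mem' := by simpa using hD'1
        inv_mem' := by
          intro g hg
          simp only [Set.mem_ofPred_eq, Subgroup.coe_inv] at *
          exact hD'inv _ hg }
    intro g hg
    have := hgen ⟨g, hg⟩ S (by
      intro i
      change D' (h i) = 0
      simp only [D', hDh, sub_self])
    exact this
  let f : FreeGroup X → ZMod 2 := fun y => (D' y).coeff 1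
  have hfy : ∀ y w, f (y * w) = f y + (D' w).coeff y⁻¹ := by
    intro y w
    change (D' (y * w)).coeff 1 = (D' y).coeff 1 + _
    rw [hD', MonoidAlgebra.coeff_add, Finsupp.add_apply]
    congr 1
    have h2 := MonoidAlgebra.coeff_single_mul_apply (D' w) (1 : ZMod 2) y 1
    rw [one_mul, mul_one] at h2
    exact h2
  by_cases hconst : ∃ g, f g ≠ f 1
  · right
    obtain ⟨ψ, x, hx⟩ := Wh.whitehead X (Finset.univ.toList.map h) f (by
      intro g hg y
      obtain ⟨i, -, rfl⟩ := List.mem_map.1 hg
      rw [hfy, hD'H _ (b i).2]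
      simp) (by
      intro w
      have h1 : {y | f (y * w) ≠ f y} ⊆ (fun y => y⁻¹) ''
          ((D' w).coeff.support : Set (FreeGroup X)) := by
        intro y hy
        refine ⟨y⁻¹, ?_, inv_inv y⟩
        rw [Finset.mem_coe, Finsupp.mem_support_iff]
        intro h0
        apply hy
        rw [hfy, h0, add_zero]
      exact ((Finset.finite_toSet _).image _).subset h1) hconst
    refine ⟨ψ, x, ?_⟩
    rintro _ ⟨g, hg, rfl⟩
    let S : Subgroup H := ((Subgroup.closure (FreeGroup.of '' {y | y ≠ x})).comap
      ψ.toMonoidHom).comap H.subtype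
    exact hgen ⟨g, hg⟩ S (fun i => hx (h i) (List.mem_map.2 ⟨i, by simp, rfl⟩))
  · left
    push Not at hconst
    rw [eq_top_iff]
    rintro g -
    have h0 : ∀ w, D' w = 0 := by
      intro w
      apply MonoidAlgebra.coeff_injective
      apply Finsupp.ext
      intro y
      have := hfy y⁻¹ w
      rw [hconst, hconst y⁻¹, inv_inv] at this
      exact (left_eq_add.1 this)
    -- the map to the permutation module
    let q : R →+ ((FreeGroup X ⧸ H) →₀ ZMod 2) :=
      (Finsupp.mapDomain.addMonoidHom (M := ZMod 2)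
        (fun g : FreeGroup X => (g : FreeGroup X ⧸ H))).comp
        (MonoidAlgebra.coeffAddEquiv (R := ZMod 2) (M := FreeGroup X)).toAddMonoidHom
    have h3 : ∀ z (c : ZMod 2), q (MonoidAlgebra.single z c : R) =
        Finsupp.single ((z : FreeGroup X ⧸ H)) c := by
      intro z c
      exact Finsupp.mapDomain_single
    have hq : ∀ (r : R) (k : FreeGroup X), k ∈ H → q (r * (o k - 1)) = 0 := by
      intro r k hk
      induction r using MonoidAlgebra.induction_linear with
      | zero => rw [zero_mul, map_zero]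
      | add r r' hr hr' => rw [add_mul, map_add, hr, hr', add_zero]
      | single y c =>
        have h1 : (MonoidAlgebra.single y c : R) * (o k - 1) =
            MonoidAlgebra.single (y * k) c - MonoidAlgebra.single y c := by
          rw [mul_sub, mul_one]
          congr 1
          have := MonoidAlgebra.single_mul_single y k c (1 : ZMod 2)
          rw [mul_one] at this
          exact this
        have h2 : ((y * k : FreeGroup X) : FreeGroup X ⧸ H) = (y : FreeGroup X ⧸ H) := by
          rw [QuotientGroup.eq]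
          simpa using hk
        rw [h1, map_sub, h3, h3, h2, sub_self]
    have h1 : q (o g - 1) = 0 := by
      have h2 : (o g - 1 : R) = D g := by
        have := h0 g
        simp only [D'] at this
        exact sub_eq_zero.1 this
      rw [h2]
      simp only [D, map_sum]
      apply Finset.sum_eq_zero
      intro i _
      exact hq _ _ (b i).2
    rw [map_sub, sub_eq_zero] at h1
    have h4 := h3 g 1
    have h5 := h3 1 1
    have h6 : (o g : R) = MonoidAlgebra.single g 1 := rfl
    have h7 : (1 : R) = MonoidAlgebra.single 1 1 := rfl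
    rw [h6, h7, h4, h5] at h1
    have h8 := Finsupp.single_left_injective (one_ne_zero) h1
    rw [QuotientGroup.eq] at h8
    simpa using h8

theorem map_comap_of_le {X : Type u} {F : Type*} [Group F] (p : X → Prop)
    (ψ : F ≃* FreeGroup X) (H : Subgroup F)
    (h : H.map ψ.toMonoidHom ≤ Subgroup.closure (FreeGroup.of '' {y | p y})) {X1 : Type*} {X2 : Type*}
    (e : X ≃ X1 ⊕ X2) (he : ∀ x, p x → ∃ x1, e x = Sum.inl x1) :
    ∃ H1 : Subgroup (FreeGroup X1),
      H.map (ψ.trans (FreeGroup.freeGroupCongr e)).toMonoidHom =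
        H1.map (FreeGroup.map Sum.inl) := by
  refine ⟨(H.map (ψ.trans (FreeGroup.freeGroupCongr e)).toMonoidHom).comap
    (FreeGroup.map Sum.inl), ?_⟩
  rw [Subgroup.map_comap_eq, inf_eq_right.2]
  have h1 : H.map (ψ.trans (FreeGroup.freeGroupCongr e)).toMonoidHom =
      (H.map ψ.toMonoidHom).map (FreeGroup.freeGroupCongr e).toMonoidHom := by
    rw [Subgroup.map_map]
    rfl
  rw [h1]
  refine (Subgroup.map_mono h).trans ?_
  rw [MonoidHom.map_closure, Subgroup.closure_le]
  rintro _ ⟨_, ⟨x, hx, rfl⟩, rfl⟩
  obtain ⟨x1, hx1⟩ := he x hx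
  refine ⟨FreeGroup.of x1, ?_⟩
  simp [hx1]

theorem ff_finite (n : ℕ) : ∀ (X : Type) [Finite X] (H : Subgroup (FreeGroup X)),
    Nat.card X = n → H.FG → ExtHom H → FF.{0, 0, 0} H := by
  induction n using Nat.strong_induction_on with
  | _ n ih =>
    intro X _ H hn hFG hE
    rcases main_step X H hFG hE with rfl | ⟨ψ, x, hx⟩
    · exact FF_top X
    · classical
      let e : X ≃ {y : X // y ≠ x} ⊕ {y : X // ¬ y ≠ x} := (Equiv.sumCompl (fun y => y ≠ x)).symm
      obtain ⟨H1, hH1⟩ := map_comap_of_le (fun y => y ≠ x) ψ H hx e (by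
        intro y hy
        exact ⟨⟨y, hy⟩, Equiv.sumCompl_symm_apply_of_pos (p := fun y => y ≠ x) hy⟩)
      obtain ⟨h1, h2, h3⟩ := reduce _ H H1 hH1
      apply h3
      refine ih (Nat.card {y : X // y ≠ x}) ?_ _ H1 rfl (h2 hFG) (h1 hE)
      rw [← hn]
      exact Finite.card_subtype_lt (p := fun y => y ≠ x) (x := x) (by simp)

theorem ff_general {F : Type u} [Group F] [IsFreeGroup F] (H : Subgroup F) (hFG : H.FG)
    (hE : ExtHom H) : FF.{u, 0, u} H := by
  classical
  obtain ⟨X, ⟨b⟩⟩ := IsFreeGroup.nonempty_basis (G := F)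
  obtain ⟨S, rfl⟩ := hFG
  -- finitely many generators involved
  let X0 : Finset X := S.biUnion fun g => ((b.repr g).toWord.map Prod.fst).toFinset
  have hmem : (Subgroup.closure (S : Set F)).map b.repr.toMonoidHom ≤
      Subgroup.closure (FreeGroup.of '' {y | y ∈ X0}) := by
    rw [MonoidHom.map_closure, Subgroup.closure_le]
    rintro _ ⟨g, hg, rfl⟩
    have h1 : ∀ w : List (X × Bool), (∀ y ∈ w, y.1 ∈ X0) →
        (FreeGroup.mk w) ∈ Subgroup.closure (FreeGroup.of '' {y | y ∈ X0}) := by
      intro w
      induction w with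
      | nil => intro _; exact one_mem _
      | cons y w ihw =>
        intro hw
        have h2 : (FreeGroup.mk (y :: w)) = FreeGroup.mk [y] * FreeGroup.mk w := by simp
        rw [h2]
        apply mul_mem _ (ihw fun z hz => hw z (by simp [hz]))
        have h3 : FreeGroup.of y.1 ∈ Subgroup.closure (FreeGroup.of '' {y | y ∈ X0}) :=
          Subgroup.subset_closure ⟨y.1, hw y (by simp), rfl⟩
        obtain ⟨z, c⟩ := y
        cases c
        · have h4 : FreeGroup.mk [(z, false)] = (FreeGroup.of z)⁻¹ := rfl
          rw [h4]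
          exact inv_mem h3
        · exact h3
    have h2 := h1 (b.repr g).toWord (by
      intro y hy
      simp only [X0, Finset.mem_biUnion]
      refine ⟨g, hg, ?_⟩
      rw [List.mem_toFinset]
      exact List.mem_map.2 ⟨y, hy, rfl⟩)
    rw [FreeGroup.mk_toWord] at h2
    exact h2
  let e0 : {y : X // y ∈ X0} ≃ Fin (Fintype.card {y : X // y ∈ X0}) :=
    Fintype.equivFin _
  let e : X ≃ Fin (Fintype.card {y : X // y ∈ X0}) ⊕ {y : X // ¬ y ∈ X0} :=
    (Equiv.sumCompl (fun y => y ∈ X0)).symm.trans (Equiv.sumCongr e0 (Equiv.refl _))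
  obtain ⟨H1, hH1⟩ := map_comap_of_le (fun y => y ∈ X0) b.repr (Subgroup.closure (S : Set F))
    hmem e (by
      intro y hy
      refine ⟨e0 ⟨y, hy⟩, ?_⟩
      simp only [e, Equiv.trans_apply]
      rw [Equiv.sumCompl_symm_apply_of_pos (p := fun y => y ∈ X0) hy]
      rfl)
  obtain ⟨h1, h2, h3⟩ := reduce _ _ H1 hH1
  exact h3 (ff_finite _ _ H1 rfl (h2 ⟨S, rfl⟩) (h1 hE))

end Pool.Agent.PPile
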