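import Pool.Agent.PPile.Defs

/-!
# T4: an invariant clopen set around a point of a pile (MP_b4f2f0_al)
-/

namespace Pool.Agent.PPile

universe u v

open Pile

/-- The set of points all of whose translates by elements of a clopen set `S` lie in a clopen
set `D` is clopen. -/
theorem isClopen_forall_act {G : ProfiniteGrp.{u}} {T : Profinite.{v}} (P : Pile G T)
    {S : Set G} (hS : IsClopen S) {D : Set T} (hD : IsClopen D) :
    IsClopen {τ : T | ∀ g ∈ S, P.act τ g ∈ D} := by
  have hcont : ∀ g : G, Continuous fun τ : T => P.act τ g := fun g =>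
    P.continuous_act.comp (continuous_id.prodMk continuous_const)
  constructor
  · have h1 : {τ : T | ∀ g ∈ S, P.act τ g ∈ D} = ⋂ g ∈ S, (fun τ : T => P.act τ g) ⁻¹' D := by
      ext τ
      simp
    rw [h1]
    exact isClosed_biInter fun g _ => hD.isClosed.preimage (hcont g)
  · rw [← isClosed_compl_iff]
    have h2 : {τ : T | ∀ g ∈ S, P.act τ g ∈ D}ᶜ
        = Prod.fst '' {p : T × G | p.2 ∈ S ∧ P.act p.1 p.2 ∈ Dᶜ} := by
      ext τ
      simp only [Set.mem_compl_iff, Set.mem_ofPred_eq, Set.mem_image, Prod.exists,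
        exists_and_right, exists_eq_right]
      push Not
      rfl
    rw [h2]
    have h3 : IsClosed {p : T × G | p.2 ∈ S ∧ P.act p.1 p.2 ∈ Dᶜ} :=
      (hS.isClosed.preimage continuous_snd).inter
        (hD.compl.isClosed.preimage P.continuous_act)
    exact (h3.isCompact.image continuous_fst).isClosed

theorem tClopen : TClopen.{u, v} := by
  intro G T P t A _ φ hφ
  -- the clopen set of relevant group elements
  set S : Set G := {g | φ g ∈ (P.stab t).map φ} with hSdef
  have hdisc : DiscreteTopology A := inferInstance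
  have hS : IsClopen S := by
    have : S = φ ⁻¹' ((P.stab t).map φ : Set A) := rfl
    rw [this]
    exact (isClopen_discrete _).preimage hφ
  have hSc : IsClopen Sᶜ := hS.compl
  have hmulS : ∀ g ∈ S, ∀ h ∈ S, g * h ∈ S := by
    intro g hg h hh
    show φ (g * h) ∈ (P.stab t).map φ
    rw [map_mul]
    exact mul_mem hg hh
  have hone : (1 : G) ∈ S := by
    show φ 1 ∈ (P.stab t).map φ
    rw [map_one]
    exact one_mem _
  have hcancel : ∀ g ∈ S, ∀ h, g * h ∈ S → h ∈ S := by
    intro g hg h hh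
    show φ h ∈ (P.stab t).map φ
    have h1 : φ h = (φ g)⁻¹ * φ (g * h) := by rw [map_mul]; group
    rw [h1]
    exact mul_mem (inv_mem hg) hh
  have hcancel' : ∀ g ∈ S, ∀ h, h * g ∈ S → h ∈ S := by
    intro g hg h hh
    show φ h ∈ (P.stab t).map φ
    have h1 : φ h = φ (h * g) * (φ g)⁻¹ := by rw [map_mul]; group
    rw [h1]
    exact mul_mem hh (inv_mem hg)
  have hstab : ∀ g, P.act t g = t → g ∈ S := fun g hg => ⟨g, hg, rfl⟩
  -- the two compact sets
  have hct : Continuous fun g : G => P.act t g :=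
    P.continuous_act.comp (continuous_const.prodMk continuous_id)
  set K0 : Set T := (fun g : G => P.act t g) '' S with hK0
  set K1 : Set T := (fun g : G => P.act t g) '' Sᶜ with hK1
  have hK0c : IsClosed K0 := (hS.isClosed.isCompact.image hct).isClosed
  have hK1c : IsClosed K1 := (hSc.isClosed.isCompact.image hct).isClosed
  have hdisj : K0 ⊆ K1ᶜ := by
    rintro _ ⟨p, hp, rfl⟩ ⟨q, hq, hpq⟩
    apply hq
    have h1 : P.act t (q * p⁻¹) = t := by
      rw [P.act_mul]
      have : P.act t q = P.act t p := hpq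
      rw [this, ← P.act_mul, mul_inv_cancel, P.act_one]
    have h2 : q * p⁻¹ ∈ S := hstab _ h1
    have h3 := hmulS _ h2 _ hp
    rwa [inv_mul_cancel_right] at h3
  obtain ⟨C1, hC1, hK0C1, hC1K1⟩ := exists_clopen_of_closed_subset_open hK0c hK1c.isOpen_compl hdisj
  -- points of C1 all of whose translates by the complement leave C1
  set C0 : Set T := C1 ∩ {τ : T | ∀ g ∈ Sᶜ, P.act τ g ∈ C1ᶜ} with hC0
  have hC0c : IsClopen C0 := hC1.inter (isClopen_forall_act P hSc hC1.compl)
  refine ⟨{τ : T | ∀ g ∈ S, P.act τ g ∈ C0}, isClopen_forall_act P hS hC0c, ?_, ?_, ?_⟩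
  · intro p hp
    refine ⟨hK0C1 ⟨p, hp, rfl⟩, ?_⟩
    intro g hg hmem
    have hpg : p * g ∈ Sᶜ := fun h => hg (hcancel p hp g h)
    have h1 : P.act (P.act t p) g ∈ K1 := ⟨p * g, hpg, P.act_mul t p g⟩
    exact hC1K1 hmem h1
  · intro τ hτ g hg p hp
    rw [← P.act_mul]
    exact hτ (g * p) (hmulS g hg p hp)
  · intro τ hτ g hg
    by_contra hgS
    have hgS' : g ∈ Sᶜ := hgS
    have h1 : P.act τ 1 ∈ C0 := hτ 1 hone
    rw [P.act_one] at h1
    have h2 : P.act (P.act τ g) 1 ∈ C0 := hg 1 hone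
    rw [P.act_one] at h2
    exact h1.2 g hgS' h2.1

end Pool.Agent.PPile
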