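import Mathlib

/-!
# Piles: definitions, and the target statements of the PPile project (MP_b4f2f0_al)
-/

namespace Pool.Agent.PPile

universe u v u' v' u'' v''

open ProfiniteGrp

/-- A pile `(G, T)`: a profinite group `G` acting continuously from the right on a profinite
space `T`; `act t g` is `t ^ g`. -/
structure Pile (G : ProfiniteGrp.{u}) (T : Profinite.{v}) where
  /-- The right action `t ^ g`. -/
  act : T → G → T
  act_one : ∀ t, act t 1 = t
  act_mul : ∀ t g h, act t (g * h) = act (act t g) h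
  continuous_act : Continuous fun p : T × G => act p.1 p.2

namespace Pile

/-- The stabilizer `G_t` of a point. -/
def stab {G : ProfiniteGrp.{u}} {T : Profinite.{v}} (P : Pile G T) (t : T) : Subgroup G where
  carrier := {g | P.act t g = t}
  mul_mem' := by
    intro g h hg hh
    simp only [Set.mem_setOf_eq] at hg hh ⊢
    rw [P.act_mul, hg, hh]
  one_mem' := P.act_one t
  inv_mem' := by
    intro g hg
    simp only [Set.mem_setOf_eq] at hg ⊢
    have h1 := P.act_mul t g g⁻¹
    rw [mul_inv_cancel, P.act_one, hg] at h1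
    exact h1.symm

theorem mem_stab {G : ProfiniteGrp.{u}} {T : Profinite.{v}} (P : Pile G T) {t : T} {g : G} :
    g ∈ P.stab t ↔ P.act t g = t := Iff.rfl

/-- The orbit equivalence relation on `T`. -/
def orbitSetoid {G : ProfiniteGrp.{u}} {T : Profinite.{v}} (P : Pile G T) : Setoid T where
  r s t := ∃ g, P.act s g = t
  iseqv := by
    refine ⟨fun s => ⟨1, P.act_one s⟩, ?_, ?_⟩
    · rintro s t ⟨g, rfl⟩
      exact ⟨g⁻¹, by rw [← P.act_mul, mul_inv_cancel, P.act_one]⟩
    · rintro r s t ⟨g, rfl⟩ ⟨h, rfl⟩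
      exact ⟨g * h, P.act_mul r g h⟩

/-- The orbit space `T / G`, with the quotient topology. -/
abbrev Orbits {G : ProfiniteGrp.{u}} {T : Profinite.{v}} (P : Pile G T) : Type v :=
  Quotient P.orbitSetoid

/-- Morphisms of piles `(B, Y) → (A, X)`. -/
structure Hom {B : ProfiniteGrp.{u}} {Y : Profinite.{v}} (P : Pile B Y)
    {A : ProfiniteGrp.{u'}} {X : Profinite.{v'}} (Q : Pile A X) where
  /-- The homomorphism of groups. -/
  toGrp : B →* A
  continuous_toGrp : Continuous toGrp
  /-- The map of spaces. -/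
  toSp : Y → X
  continuous_toSp : Continuous toSp
  map_act : ∀ y b, toSp (P.act y b) = Q.act (toSp y) (toGrp b)

/-- Epimorphisms of piles: `α(B) = A`, `α(Y) = X` and every `x ∈ X` has a preimage `y` with
`α(B_y) = A_x`. -/
def Hom.IsEpi {B : ProfiniteGrp.{u}} {Y : Profinite.{v}} {P : Pile B Y}
    {A : ProfiniteGrp.{u'}} {X : Profinite.{v'}} {Q : Pile A X} (α : Hom P Q) : Prop :=
  Function.Surjective α.toGrp ∧ Function.Surjective α.toSp ∧
    ∀ x, ∃ y, α.toSp y = x ∧ (P.stab y).map α.toGrp = Q.stab x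

/-- The induced map of orbit spaces. -/
def Hom.orbitMap {B : ProfiniteGrp.{u}} {Y : Profinite.{v}} {P : Pile B Y}
    {A : ProfiniteGrp.{u'}} {X : Profinite.{v'}} {Q : Pile A X} (α : Hom P Q) :
    P.Orbits → Q.Orbits :=
  Quotient.map' α.toSp (by
    rintro y y' ⟨b, rfl⟩
    exact ⟨α.toGrp b, (α.map_act y b).symm⟩)

/-- Rigid morphisms: `α` restricts to an isomorphism (for these compact groups: a bijection)
`B_y → A_{α(y)}` for every `y ∈ Y`, and `Y / B → X / A` is a homeomorphism. -/
def Hom.IsRigid {B : ProfiniteGrp.{u}} {Y : Profinite.{v}} {P : Pile B Y}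
    {A : ProfiniteGrp.{u'}} {X : Profinite.{v'}} {Q : Pile A X} (α : Hom P Q) : Prop :=
  (∀ y, Set.BijOn α.toGrp (P.stab y) (Q.stab (α.toSp y))) ∧ IsHomeomorph α.orbitMap

/-- Projective piles: every finite rigid embedding problem has a solution. -/
def IsProjective {G : ProfiniteGrp.{u}} {T : Profinite.{v}} (P : Pile G T) : Prop :=
  ∀ (A B : ProfiniteGrp.{0}) (X Y : Profinite.{0}) (Q : Pile A X) (R : Pile B Y)
    (φ : Hom P Q) (α : Hom R Q), Finite B → Finite Y → α.IsEpi → α.IsRigid →
    ∃ γ : Hom P R, (∀ g, α.toGrp (γ.toGrp g) = φ.toGrp g) ∧ ∀ t, α.toSp (γ.toSp t) = φ.toSp t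

end Pile

/-- `H` is a free factor of `F`: there is a subgroup `K` with `F = H * K`. -/
def IsFreeFactor {F : Type u} [Group F] (H : Subgroup F) : Prop :=
  ∃ K : Subgroup F, Function.Bijective (Monoid.Coprod.lift H.subtype K.subtype)

/-! ### Target statements -/

/-- T1 (Whitehead).  `L` a finite set of elements of a free group of finite rank; `f` a function
invariant under right multiplication by the elements of `L`, of finite coboundary and not
constant: then some automorphism takes `L` into the subgroup generated by a proper subset of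
the basis. -/
def TWhitehead : Prop :=
  ∀ (X : Type) [Finite X] (L : List (FreeGroup X)) (f : FreeGroup X → ZMod 2),
    (∀ h ∈ L, ∀ g, f (g * h) = f g) → (∀ w, {g | f (g * w) ≠ f g}.Finite) →
    (∃ g, f g ≠ f 1) → ∃ ψ : FreeGroup X ≃* FreeGroup X, ∃ x : X,
      ∀ h ∈ L, ψ h ∈ Subgroup.closure (FreeGroup.of '' {y | y ≠ x})

/-- T2 (linear M. Hall completion).  `F` free on the finite set `X`, `h : β → F` a finite family.
Suppose that for every `k`, every representation `ρ` of `F` on `(Fin k → ZMod 2)` and every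
`ν : β → (Fin k → ZMod 2)` there is a derivation `d` of `F` for `ρ` with `d (h b) = ν b`.  Then for
every `b` there is a derivation `D` of `F` into the (left) regular module `(ZMod 2)[F]` with
`D (h b) = 1` and `D (h c) = 0` for `c ≠ b`. -/
def TLinear : Prop :=
  ∀ (X β : Type) [Finite X] [Finite β] [DecidableEq β] (h : β → FreeGroup X),
    (∀ (k : ℕ) (ρ : FreeGroup X →* ((Fin k → ZMod 2) ≃ₗ[ZMod 2] (Fin k → ZMod 2)))
      (ν : β → (Fin k → ZMod 2)), ∃ d : FreeGroup X → (Fin k → ZMod 2),
        (∀ g g', d (g * g') = d g + ρ g (d g')) ∧ ∀ b, d (h b) = ν b) →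
    ∀ b : β, ∃ D : FreeGroup X → MonoidAlgebra (ZMod 2) (FreeGroup X),
      (∀ g g', D (g * g') = D g + MonoidAlgebra.of (ZMod 2) (FreeGroup X) g * D g') ∧
      ∀ c, D (h c) = if c = b then 1 else 0

/-- T3 (M. Hall).  A finitely generated subgroup `H` of a free group `F` (any rank): every
homomorphism of `H` to a finite group is trivial on the intersection of `H` with the kernel of some
homomorphism from `F` to a finite symmetric group. -/
def THall : Prop :=
  ∀ (X : Type u) (H : Subgroup (FreeGroup X)), H.FG → ∀ (Q : Type) [Group Q] [Finite Q]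
    (π : H →* Q), ∃ (m : ℕ) (ρ : FreeGroup X →* Equiv.Perm (Fin m)),
      ∀ h : H, ρ h = 1 → π h = 1

/-- T4 (clopen set).  `t` a point of a pile, `φ` a continuous homomorphism to a finite group: there
is a clopen set containing `t`, invariant under the elements `g` with `φ g ∈ φ(G_t)` and disjoint
from its translates by the others. -/
def TClopen : Prop :=
  ∀ (G : ProfiniteGrp.{u}) (T : Profinite.{v}) (P : Pile G T) (t : T) (A : ProfiniteGrp.{0})
    [Finite A] (φ : G →* A), Continuous φ →
    ∃ C : Set T, IsClopen C ∧ t ∈ C ∧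
      (∀ τ ∈ C, ∀ g, φ g ∈ (P.stab t).map φ → P.act τ g ∈ C) ∧
      (∀ τ ∈ C, ∀ g, P.act τ g ∈ C → φ g ∈ (P.stab t).map φ)

/-- T5 (split lifting relative to a point stabilizer). -/
def TSplit : Prop :=
  ∀ (G : ProfiniteGrp.{u}) (T : Profinite.{v}) (P : Pile G T), P.IsProjective → ∀ (t : T)
    (A : ProfiniteGrp.{0}) [Finite A] (N : Type) [Group N] [Finite N] (θ : A →* MulAut N)
    (φ : G →* A), Continuous φ → ∀ (lam : P.stab t →* N ⋊[θ] A),
    (∀ h, (lam h).right = φ h) → (∀ h : P.stab t, φ h = 1 → lam h = 1) →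
    ∃ γ : G →* N ⋊[θ] A, (∀ g, (γ g).right = φ g) ∧ ∀ h : P.stab t, γ h = lam h

end Pool.Agent.PPile
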