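import Pool.Agent.PPile.Defs

/-!
# M. Hall's theorem (`THall`)
-/

namespace Pool.Agent.PPile

universe u

namespace Hall

variable {X : Type u}

theorem aux (V : Subgroup (FreeGroup X)) (W : Set (FreeGroup X)) (hW : W.Finite) :
    ∃ (Q₀ : Set (FreeGroup X ⧸ V)) (_ : Q₀.Finite)
      (h1 : ((1 : FreeGroup X) : FreeGroup X ⧸ V) ∈ Q₀) (ρ : FreeGroup X →* Equiv.Perm Q₀),
      ∀ w ∈ W, ((ρ w ⟨_, h1⟩ : Q₀) : FreeGroup X ⧸ V) = (w : FreeGroup X ⧸ V) := by
  classical
  let Q₀ : Set (FreeGroup X ⧸ V) := insert ((1 : FreeGroup X) : FreeGroup X ⧸ V)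
    (⋃ w ∈ W, (fun L : List (X × Bool) => ((FreeGroup.mk L : FreeGroup X) : FreeGroup X ⧸ V)) ''
      {L | L ∈ w.toWord.tails})
  have hfin : Q₀.Finite := by
    refine Set.Finite.insert _ (hW.biUnion fun w _ => Set.Finite.image _ ?_)
    exact List.finite_toSet _
  have h1 : ((1 : FreeGroup X) : FreeGroup X ⧸ V) ∈ Q₀ := Set.mem_insert _ _
  have hsuf : ∀ w ∈ W, ∀ L : List (X × Bool), L <:+ w.toWord →
      ((FreeGroup.mk L : FreeGroup X) : FreeGroup X ⧸ V) ∈ Q₀ := by
    intro w hw L hL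
    refine Set.mem_insert_of_mem _ ?_
    refine Set.mem_biUnion hw ⟨L, ?_, rfl⟩
    exact (List.mem_tails _ _).2 hL
  have : Fintype Q₀ := hfin.fintype
  let e : ∀ x : X, {q : Q₀ // FreeGroup.of x • q.1 ∈ Q₀} ≃
      {q : Q₀ // (FreeGroup.of x)⁻¹ • q.1 ∈ Q₀} := fun x =>
    { toFun := fun q => ⟨⟨FreeGroup.of x • q.1.1, q.2⟩, by
        simp only [inv_smul_smul]
        exact q.1.2⟩
      invFun := fun q => ⟨⟨(FreeGroup.of x)⁻¹ • q.1.1, q.2⟩, by
        simp only [smul_inv_smul]
        exact q.1.2⟩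
      left_inv := by
        intro q
        apply Subtype.ext
        apply Subtype.ext
        simp only [inv_smul_smul]
      right_inv := by
        intro q
        apply Subtype.ext
        apply Subtype.ext
        simp only [smul_inv_smul] }
  let σ : X → Equiv.Perm Q₀ := fun x => (e x).extendSubtype
  have hσ : ∀ (x : X) (q : Q₀) (hq : FreeGroup.of x • q.1 ∈ Q₀),
      σ x q = ⟨FreeGroup.of x • q.1, hq⟩ := by
    intro x q hq
    exact (e x).extendSubtype_apply_of_mem q hq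
  have hσ' : ∀ (x : X) (q : Q₀) (hq : (FreeGroup.of x)⁻¹ • q.1 ∈ Q₀),
      (σ x)⁻¹ q = ⟨(FreeGroup.of x)⁻¹ • q.1, hq⟩ := by
    intro x q hq
    rw [Equiv.Perm.inv_eq_iff_eq, hσ x ⟨(FreeGroup.of x)⁻¹ • q.1, hq⟩ (by
      simp only [smul_inv_smul]; exact q.2)]
    apply Subtype.ext
    simp only [smul_inv_smul]
  let ρ : FreeGroup X →* Equiv.Perm Q₀ := FreeGroup.lift σ
  have key : ∀ L : List (X × Bool), (∀ L' : List (X × Bool), L' <:+ L →
      ((FreeGroup.mk L' : FreeGroup X) : FreeGroup X ⧸ V) ∈ Q₀) →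
      ((ρ (FreeGroup.mk L) ⟨_, h1⟩ : Q₀) : FreeGroup X ⧸ V) =
        ((FreeGroup.mk L : FreeGroup X) : FreeGroup X ⧸ V) := by
    intro L
    induction L with
    | nil =>
      intro _
      rw [← FreeGroup.one_eq_mk, map_one]
      rfl
    | cons a L ih =>
      intro hL
      have ih' := ih fun L' hL' => hL L' (hL'.trans (List.suffix_cons a L))
      have hLQ := hL L (List.suffix_cons a L)
      have haLQ := hL (a :: L) (List.suffix_refl _)
      have ih2 : ρ (FreeGroup.mk L) ⟨_, h1⟩ =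
          (⟨((FreeGroup.mk L : FreeGroup X) : FreeGroup X ⧸ V), hLQ⟩ : Q₀) := Subtype.ext ih'
      have hmul : (FreeGroup.mk (a :: L) : FreeGroup X) = FreeGroup.mk [a] * FreeGroup.mk L := by
        rw [FreeGroup.mul_mk]; rfl
      have hc : ((FreeGroup.mk (a :: L) : FreeGroup X) : FreeGroup X ⧸ V) =
          FreeGroup.mk [a] • ((FreeGroup.mk L : FreeGroup X) : FreeGroup X ⧸ V) := by
        rw [hmul]; rfl
      rw [hc] at haLQ ⊢
      rw [hmul, map_mul, Equiv.Perm.mul_apply, ih2]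
      obtain ⟨x, b⟩ := a
      cases b with
      | true =>
        have hx : (FreeGroup.mk [(x, true)] : FreeGroup X) = FreeGroup.of x := rfl
        rw [hx] at haLQ ⊢
        have : ρ (FreeGroup.of x) = σ x := FreeGroup.lift_apply_of
        rw [this, hσ x _ haLQ]
      | false =>
        have hx : (FreeGroup.mk [(x, false)] : FreeGroup X) = (FreeGroup.of x)⁻¹ := rfl
        rw [hx] at haLQ ⊢
        have : ρ ((FreeGroup.of x)⁻¹) = (σ x)⁻¹ := by
          rw [map_inv]
          exact congrArg (fun z => z⁻¹) FreeGroup.lift_apply_of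
        rw [this, hσ' x _ haLQ]
  refine ⟨Q₀, hfin, h1, ρ, fun w hw => ?_⟩
  have h := key w.toWord (fun L' hL' => hsuf w hw L' hL')
  rwa [FreeGroup.mk_toWord] at h

theorem target : THall.{u} := by
  intro X H hH Q _ _ π
  classical
  -- the finite index subgroup
  have : Group.FG H := (Group.fg_iff_subgroup_fg H).2 hH
  have : π.ker.FiniteIndex := Subgroup.finiteIndex_ker π
  have hk : (π.ker).FG := (Group.fg_iff_subgroup_fg _).1 inferInstance
  obtain ⟨S, hS⟩ := hk
  let V : Subgroup (FreeGroup X) := π.ker.map H.subtype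
  have hV : V = Subgroup.closure (H.subtype '' (S : Set H)) := by
    change π.ker.map H.subtype = _
    rw [← hS, MonoidHom.map_closure]
  let g : Q → FreeGroup X := fun q => if h : ∃ k : H, π k = q then (h.choose : FreeGroup X) else 1
  have hg : ∀ h : H, ∃ k : H, π k = π h ∧ g (π h) = k := by
    intro h
    have hex : ∃ k : H, π k = π h := ⟨h, rfl⟩
    refine ⟨hex.choose, hex.choose_spec, ?_⟩
    exact dif_pos hex
  let W : Set (FreeGroup X) := H.subtype '' (S : Set H) ∪ Set.range g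
  have hW : W.Finite := (S.finite_toSet.image _).union (Set.finite_range g)
  obtain ⟨Q₀, hfin, h1, ρ, hρ⟩ := aux V W hW
  have : Fintype Q₀ := hfin.fintype
  let eq := Fintype.equivFin Q₀
  refine ⟨Fintype.card Q₀, (eq.permCongrHom.toMonoidHom).comp ρ, fun h hh => ?_⟩
  have hρh : ρ h = 1 := by
    have : eq.permCongrHom (ρ h) = eq.permCongrHom 1 := by rw [map_one]; exact hh
    exact eq.permCongrHom.injective this
  -- elements of V fix the base point
  have hfix : ∀ v ∈ V, ρ v ⟨_, h1⟩ = ⟨_, h1⟩ := by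
    intro v hv
    rw [hV] at hv
    induction hv using Subgroup.closure_induction with
    | mem v hv =>
      apply Subtype.ext
      rw [hρ v (Or.inl hv)]
      have hvV : v ∈ V := by
        rw [hV]
        exact Subgroup.subset_closure hv
      exact (QuotientGroup.eq.2 (by simpa using hvV)).symm
    | one => rw [map_one]; rfl
    | mul a b _ _ ha hb => rw [map_mul, Equiv.Perm.mul_apply, hb, ha]
    | inv a _ ha =>
      rw [map_inv, Equiv.Perm.inv_eq_iff_eq, ha]
  obtain ⟨k, hk1, hk2⟩ := hg h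
  have hv : ((k⁻¹ * h : H) : FreeGroup X) ∈ V := by
    refine ⟨k⁻¹ * h, ?_, rfl⟩
    change π (k⁻¹ * h) = 1
    rw [map_mul, map_inv, hk1, inv_mul_cancel]
  have h2 : ρ h ⟨_, h1⟩ = ρ k ⟨_, h1⟩ := by
    have h3 : (h : FreeGroup X) = k * ((k⁻¹ * h : H) : FreeGroup X) := by
      simp
    rw [h3, map_mul, Equiv.Perm.mul_apply, hfix _ hv]
  rw [hρh] at h2
  have h4 := congrArg Subtype.val h2
  rw [hρ (k : FreeGroup X) (Or.inr ⟨π h, hk2⟩)] at h4
  have h5 : (k : FreeGroup X) ∈ V := by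
    have h6 : ((1 : FreeGroup X) : FreeGroup X ⧸ V) = ((k : FreeGroup X) : FreeGroup X ⧸ V) := h4
    rw [QuotientGroup.eq] at h6
    simpa using h6
  obtain ⟨k', hk', hk''⟩ := h5
  have : k' = k := Subtype.ext hk''
  rw [this] at hk'
  rw [← hk1]
  exact hk'

end Hall

theorem tHall : THall.{u} := Hall.target

end Pool.Agent.PPile
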