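import Pool.Agent.PPile.Defs

/-!
T5: split lifting from projectivity, relative to a point stabilizer.
-/

set_option autoImplicit false

namespace Pool.Agent.PPile

universe u v

open ProfiniteGrp

namespace SplitAux

/-- A finite group as a profinite group. -/
def fg (B : Type) [Group B] [Finite B] : ProfiniteGrp.{0} :=
  letI : TopologicalSpace B := ⊥
  letI : DiscreteTopology B := ⟨rfl⟩
  letI : IsTopologicalGroup B := {}
  ProfiniteGrp.of B

/-- A finite set as a profinite space. -/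
def fs (Y : Type) [Finite Y] : Profinite.{0} :=
  letI : TopologicalSpace Y := ⊥
  letI : DiscreteTopology Y := ⟨rfl⟩
  Profinite.of Y

instance (B : Type) [Group B] [Finite B] : DiscreteTopology (fg B) := ⟨rfl⟩

instance (Y : Type) [Finite Y] : DiscreteTopology (fs Y) := ⟨rfl⟩

instance (Y : Type) [Finite Y] : Finite (fs Y) := ‹Finite Y›

instance (B : Type) [Group B] [Finite B] : Finite (fg B) := ‹Finite B›

/-- The finite pile of a finite group acting on a finite set from the left. -/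
def mkPile (B : ProfiniteGrp.{0}) [DiscreteTopology B] (Y : Type) [Finite Y] [MulAction B Y] :
    Pile B (fs Y) where
  act := fun (y : Y) b => (b⁻¹ • y : Y)
  act_one := by
    have h : ∀ t : Y, ((1 : B)⁻¹ • t : Y) = t := fun t => by rw [inv_one, one_smul]
    exact h
  act_mul := by
    have h : ∀ (t : Y) (g h : B), ((g * h)⁻¹ • t : Y) = h⁻¹ • (g⁻¹ • t) := fun t g h => by
      rw [mul_inv_rev, mul_smul]
    exact h
  continuous_act := continuous_of_discreteTopology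

theorem mkPile_act (B : ProfiniteGrp.{0}) [DiscreteTopology B] (Y : Type) [Finite Y]
    [MulAction B Y] (y : Y) (b : B) : (mkPile B Y).act y b = (b⁻¹ • y : Y) := rfl

/-- The map of coset spaces. -/
def cm {B A : Type} [Group B] [Group A] (f : B →* A) (P' : Subgroup B) (P0 : Subgroup A)
    (h : P'.map f ≤ P0) : B ⧸ P' → A ⧸ P0 :=
  Quotient.map' f (by
    intro a b hab
    rw [QuotientGroup.leftRel_apply] at hab ⊢
    rw [← map_inv, ← map_mul]
    exact h (Subgroup.mem_map_of_mem f hab))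

theorem cm_mk {B A : Type} [Group B] [Group A] (f : B →* A) (P' : Subgroup B) (P0 : Subgroup A)
    (h : P'.map f ≤ P0) (b : B) : cm f P' P0 h (b : B ⧸ P') = ((f b : A) : A ⧸ P0) := rfl

theorem cm_smul {B A : Type} [Group B] [Group A] (f : B →* A) (P' : Subgroup B)
    (P0 : Subgroup A) (h : P'.map f ≤ P0) (b : B) (y : B ⧸ P') :
    cm f P' P0 h (b • y) = f b • cm f P' P0 h y := by
  induction y using QuotientGroup.induction_on with
  | H z =>
    rw [cm_mk, MulAction.Quotient.smul_coe, MulAction.Quotient.smul_coe, cm_mk, smul_eq_mul,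
      smul_eq_mul, map_mul]


section

variable {B A : ProfiniteGrp.{0}} [DiscreteTopology B] [DiscreteTopology A] [Finite B] [Finite A]
  (f : B →* A) (P' A' : Subgroup B) (P0 : Subgroup A)

/-- The morphism of finite piles. -/
def alpha (hP : P'.map f = P0) (hA : A'.map f = ⊤) :
    Pile.Hom (mkPile B ((B ⧸ P') ⊕ (B ⧸ A')))
      (mkPile A ((A ⧸ P0) ⊕ (A ⧸ (⊤ : Subgroup A)))) where
  toGrp := f
  continuous_toGrp := continuous_of_discreteTopology
  toSp := Sum.map (cm f P' P0 hP.le) (cm f A' ⊤ hA.le)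
  continuous_toSp := continuous_of_discreteTopology
  map_act := by
    have h : ∀ (y : (B ⧸ P') ⊕ (B ⧸ A')) (b : B),
        Sum.map (cm f P' P0 hP.le) (cm f A' ⊤ hA.le) (b⁻¹ • y)
          = (f b)⁻¹ • Sum.map (cm f P' P0 hP.le) (cm f A' ⊤ hA.le) y := by
      rintro (y | y) b
      · rw [Sum.smul_inl, Sum.map_inl, Sum.map_inl, Sum.smul_inl, cm_smul, map_inv]
      · rw [Sum.smul_inr, Sum.map_inr, Sum.map_inr, Sum.smul_inr, cm_smul, map_inv]
    exact h

theorem stab_inl (P1 P2 : Subgroup B) (b g : B) :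
    g ∈ (mkPile B ((B ⧸ P1) ⊕ (B ⧸ P2))).stab
      (show fs ((B ⧸ P1) ⊕ (B ⧸ P2)) from (Sum.inl (b : B ⧸ P1) : (B ⧸ P1) ⊕ (B ⧸ P2)))
        ↔ b⁻¹ * g * b ∈ P1 := by
  rw [Pile.mem_stab]
  change ((g⁻¹ • (Sum.inl (b : B ⧸ P1) : (B ⧸ P1) ⊕ (B ⧸ P2)))
    = (Sum.inl (b : B ⧸ P1) : (B ⧸ P1) ⊕ (B ⧸ P2))) ↔ _
  rw [Sum.smul_inl, Sum.inl.injEq, MulAction.Quotient.smul_coe, QuotientGroup.eq, smul_eq_mul,
    mul_inv_rev, inv_inv]

theorem stab_inr (P1 P2 : Subgroup B) (b g : B) :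
    g ∈ (mkPile B ((B ⧸ P1) ⊕ (B ⧸ P2))).stab
      (show fs ((B ⧸ P1) ⊕ (B ⧸ P2)) from (Sum.inr (b : B ⧸ P2) : (B ⧸ P1) ⊕ (B ⧸ P2)))
        ↔ b⁻¹ * g * b ∈ P2 := by
  rw [Pile.mem_stab]
  change ((g⁻¹ • (Sum.inr (b : B ⧸ P2) : (B ⧸ P1) ⊕ (B ⧸ P2)))
    = (Sum.inr (b : B ⧸ P2) : (B ⧸ P1) ⊕ (B ⧸ P2))) ↔ _
  rw [Sum.smul_inr, Sum.inr.injEq, MulAction.Quotient.smul_coe, QuotientGroup.eq, smul_eq_mul,
    mul_inv_rev, inv_inv]

omit [DiscreteTopology B] [DiscreteTopology A] [Finite B] [Finite A] in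
theorem bij_conj (P1 : Subgroup B) (P2 : Subgroup A) (h1 : P1.map f = P2)
    (h2 : ∀ x ∈ P1, f x = 1 → x = 1) (b : B) :
    Set.BijOn f {g | b⁻¹ * g * b ∈ P1} {g | (f b)⁻¹ * g * f b ∈ P2} := by
  refine ⟨?_, ?_, ?_⟩
  · intro g hg
    have := Subgroup.mem_map_of_mem f hg
    rw [h1, map_mul, map_mul, map_inv] at this
    exact this
  · intro g hg g' hg' he
    have h3 : b⁻¹ * (g⁻¹ * g') * b ∈ P1 := by
      have := P1.mul_mem (P1.inv_mem hg) hg'
      have e : (b⁻¹ * g * b)⁻¹ * (b⁻¹ * g' * b) = b⁻¹ * (g⁻¹ * g') * b := by group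
      rwa [e] at this
    have h4 := h2 _ h3 (by simp only [map_mul, map_inv, he]; group)
    have h5 : g⁻¹ * g' = 1 := by
      have : g⁻¹ * g' = b * (b⁻¹ * (g⁻¹ * g') * b) * b⁻¹ := by group
      rw [this, h4]; group
    exact (inv_mul_eq_one.mp h5)
  · intro a ha
    have ha' : (f b)⁻¹ * a * f b ∈ P1.map f := by rw [h1]; exact ha
    obtain ⟨p, hp, hpa⟩ := Subgroup.mem_map.mp ha'
    refine ⟨b * p * b⁻¹, ?_, ?_⟩
    · change b⁻¹ * (b * p * b⁻¹) * b ∈ P1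
      have : b⁻¹ * (b * p * b⁻¹) * b = p := by group
      rwa [this]
    · rw [map_mul, map_mul, map_inv, hpa]; group

theorem alpha_bijOn (hP : P'.map f = P0) (hA : A'.map f = ⊤)
    (hPi : ∀ x ∈ P', f x = 1 → x = 1) (hAi : ∀ x ∈ A', f x = 1 → x = 1)
    (y : fs ((B ⧸ P') ⊕ (B ⧸ A'))) :
    Set.BijOn (alpha f P' A' P0 hP hA).toGrp
      ((mkPile B ((B ⧸ P') ⊕ (B ⧸ A'))).stab y)
      ((mkPile A ((A ⧸ P0) ⊕ (A ⧸ (⊤ : Subgroup A)))).stab ((alpha f P' A' P0 hP hA).toSp y)) := by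
  have h : ∀ y : (B ⧸ P') ⊕ (B ⧸ A'), Set.BijOn (alpha f P' A' P0 hP hA).toGrp
      ((mkPile B ((B ⧸ P') ⊕ (B ⧸ A'))).stab y)
      ((mkPile A ((A ⧸ P0) ⊕ (A ⧸ (⊤ : Subgroup A)))).stab
        ((alpha f P' A' P0 hP hA).toSp y)) := by
    rintro (y | y)
    · induction y using QuotientGroup.induction_on with
      | H b =>
        have := bij_conj f P' P0 hP hPi b
        have e1 : {g : B | b⁻¹ * g * b ∈ P'} = ((mkPile B ((B ⧸ P') ⊕ (B ⧸ A'))).stab
            (show fs ((B ⧸ P') ⊕ (B ⧸ A')) from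
              (Sum.inl (b : B ⧸ P') : (B ⧸ P') ⊕ (B ⧸ A')))) := by
          ext g; exact (stab_inl P' A' b g).symm
        have e2 : {g : A | (f b)⁻¹ * g * f b ∈ P0}
            = ((mkPile A ((A ⧸ P0) ⊕ (A ⧸ (⊤ : Subgroup A)))).stab
            (show fs ((A ⧸ P0) ⊕ (A ⧸ (⊤ : Subgroup A))) from
              (Sum.inl ((f b : A) : A ⧸ P0) : (A ⧸ P0) ⊕ (A ⧸ (⊤ : Subgroup A))))) := by
          ext g; exact (stab_inl P0 ⊤ (f b) g).symm
        rw [e1, e2] at this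
        exact this
    · induction y using QuotientGroup.induction_on with
      | H b =>
        have := bij_conj f A' ⊤ hA hAi b
        have e1 : {g : B | b⁻¹ * g * b ∈ A'} = ((mkPile B ((B ⧸ P') ⊕ (B ⧸ A'))).stab
            (show fs ((B ⧸ P') ⊕ (B ⧸ A')) from
              (Sum.inr (b : B ⧸ A') : (B ⧸ P') ⊕ (B ⧸ A')))) := by
          ext g; exact (stab_inr P' A' b g).symm
        have e2 : {g : A | (f b)⁻¹ * g * f b ∈ (⊤ : Subgroup A)}
            = ((mkPile A ((A ⧸ P0) ⊕ (A ⧸ (⊤ : Subgroup A)))).stab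
            (show fs ((A ⧸ P0) ⊕ (A ⧸ (⊤ : Subgroup A))) from
              (Sum.inr ((f b : A) : A ⧸ (⊤ : Subgroup A)) :
                (A ⧸ P0) ⊕ (A ⧸ (⊤ : Subgroup A))))) := by
          ext g; exact (stab_inr P0 ⊤ (f b) g).symm
        rw [e1, e2] at this
        exact this
  exact h y

theorem alpha_surj (hf : Function.Surjective f) (hP : P'.map f = P0) (hA : A'.map f = ⊤) :
    Function.Surjective (alpha f P' A' P0 hP hA).toSp := by
  have h : Function.Surjective (Sum.map (cm f P' P0 hP.le) (cm f A' ⊤ hA.le)) := by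
    rintro (x | x)
    · induction x using QuotientGroup.induction_on with
      | H a =>
        obtain ⟨b, rfl⟩ := hf a
        exact ⟨Sum.inl b, rfl⟩
    · induction x using QuotientGroup.induction_on with
      | H a =>
        obtain ⟨b, rfl⟩ := hf a
        exact ⟨Sum.inr b, rfl⟩
  exact h

theorem alpha_epi (hf : Function.Surjective f) (hP : P'.map f = P0) (hA : A'.map f = ⊤)
    (hPi : ∀ x ∈ P', f x = 1 → x = 1) (hAi : ∀ x ∈ A', f x = 1 → x = 1) :
    (alpha f P' A' P0 hP hA).IsEpi := by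
  refine ⟨hf, alpha_surj f P' A' P0 hf hP hA, fun x => ?_⟩
  obtain ⟨y, hy⟩ := alpha_surj f P' A' P0 hf hP hA x
  refine ⟨y, hy, ?_⟩
  have := (alpha_bijOn f P' A' P0 hP hA hPi hAi y).image_eq
  rw [hy] at this
  apply SetLike.coe_injective
  rw [Subgroup.coe_map]
  exact this

theorem orb_inl (P1 P2 : Subgroup B) (y z : B ⧸ P1) :
    (mkPile B ((B ⧸ P1) ⊕ (B ⧸ P2))).orbitSetoid.r
      (show fs ((B ⧸ P1) ⊕ (B ⧸ P2)) from (Sum.inl y : (B ⧸ P1) ⊕ (B ⧸ P2)))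
      (show fs ((B ⧸ P1) ⊕ (B ⧸ P2)) from (Sum.inl z : (B ⧸ P1) ⊕ (B ⧸ P2))) := by
  obtain ⟨g, hg⟩ := MulAction.exists_smul_eq B y z
  refine ⟨g⁻¹, ?_⟩
  change (g⁻¹⁻¹ • (Sum.inl y : (B ⧸ P1) ⊕ (B ⧸ P2))) = (Sum.inl z : (B ⧸ P1) ⊕ (B ⧸ P2))
  rw [inv_inv, Sum.smul_inl, hg]

theorem orb_inr (P1 P2 : Subgroup B) (y z : B ⧸ P2) :
    (mkPile B ((B ⧸ P1) ⊕ (B ⧸ P2))).orbitSetoid.r
      (show fs ((B ⧸ P1) ⊕ (B ⧸ P2)) from (Sum.inr y : (B ⧸ P1) ⊕ (B ⧸ P2)))
      (show fs ((B ⧸ P1) ⊕ (B ⧸ P2)) from (Sum.inr z : (B ⧸ P1) ⊕ (B ⧸ P2))) := by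
  obtain ⟨g, hg⟩ := MulAction.exists_smul_eq B y z
  refine ⟨g⁻¹, ?_⟩
  change (g⁻¹⁻¹ • (Sum.inr y : (B ⧸ P1) ⊕ (B ⧸ P2))) = (Sum.inr z : (B ⧸ P1) ⊕ (B ⧸ P2))
  rw [inv_inv, Sum.smul_inr, hg]

theorem discrete_quot {T : Type} [TopologicalSpace T] [DiscreteTopology T] (s : Setoid T) :
    DiscreteTopology (Quotient s) := by
  refine discreteTopology_iff_forall_isOpen.mpr fun U => ?_
  exact isOpen_coinduced.mpr (isOpen_discrete _)

theorem alpha_rigid (hf : Function.Surjective f) (hP : P'.map f = P0) (hA : A'.map f = ⊤)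
    (hPi : ∀ x ∈ P', f x = 1 → x = 1) (hAi : ∀ x ∈ A', f x = 1 → x = 1) :
    (alpha f P' A' P0 hP hA).IsRigid := by
  refine ⟨alpha_bijOn f P' A' P0 hP hA hPi hAi, ?_⟩
  have : DiscreteTopology (mkPile B ((B ⧸ P') ⊕ (B ⧸ A'))).Orbits := discrete_quot _
  have : DiscreteTopology (mkPile A ((A ⧸ P0) ⊕ (A ⧸ (⊤ : Subgroup A)))).Orbits :=
    discrete_quot _
  refine ⟨continuous_of_discreteTopology, fun U _ => isOpen_discrete _, ?_, ?_⟩
  · intro p q
    refine Quotient.inductionOn₂ p q fun y z => ?_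
    intro he
    obtain ⟨a, ha⟩ := Quotient.exact he
    refine Quotient.sound ?_
    have h : ∀ y z : (B ⧸ P') ⊕ (B ⧸ A'),
        (a⁻¹ • Sum.map (cm f P' P0 hP.le) (cm f A' ⊤ hA.le) y)
          = Sum.map (cm f P' P0 hP.le) (cm f A' ⊤ hA.le) z →
        (mkPile B ((B ⧸ P') ⊕ (B ⧸ A'))).orbitSetoid.r y z := by
      rintro (y | y) (z | z) h
      · exact orb_inl P' A' y z
      · rw [Sum.map_inl, Sum.map_inr, Sum.smul_inl] at h; cases h
      · rw [Sum.map_inl, Sum.map_inr, Sum.smul_inr] at h; cases h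
      · exact orb_inr P' A' y z
    exact h y z ha
  · intro q
    refine Quotient.inductionOn q fun x => ?_
    obtain ⟨y, rfl⟩ := alpha_surj f P' A' P0 hf hP hA x
    exact ⟨Quotient.mk _ y, rfl⟩

end


section phi

variable {G : ProfiniteGrp.{u}} {T : Profinite.{v}} (P : Pile G T) (A : ProfiniteGrp.{0})
  [Finite A] (φ : G →* A) (P0 : Subgroup A) (C : Set T)

open Classical in
/-- The map of the space to the finite coset space. -/
noncomputable def fsp (τ : T) : (A ⧸ P0) ⊕ (A ⧸ (⊤ : Subgroup A)) :=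
  if h : ∃ g, P.act τ g ∈ C then Sum.inl ((φ h.choose : A) : A ⧸ P0)
  else Sum.inr ((1 : A) : A ⧸ (⊤ : Subgroup A))

omit [Finite A] in
theorem fsp_of (hC : ∀ τ ∈ C, ∀ g, P.act τ g ∈ C → φ g ∈ P0) (τ : T) (g : G)
    (h : P.act τ g ∈ C) : fsp P A φ P0 C τ = Sum.inl ((φ g : A) : A ⧸ P0) := by
  have hex : ∃ g, P.act τ g ∈ C := ⟨g, h⟩
  rw [fsp, dif_pos hex, Sum.inl.injEq, QuotientGroup.eq, ← map_inv, ← map_mul]
  refine hC _ hex.choose_spec _ ?_
  rw [← P.act_mul, mul_inv_cancel_left]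
  exact h

omit [Finite A] in
theorem fsp_not (τ : T) (h : ∀ g, P.act τ g ∉ C) :
    fsp P A φ P0 C τ = Sum.inr ((1 : A) : A ⧸ (⊤ : Subgroup A)) := by
  rw [fsp, dif_neg (by simpa using h)]

omit [Finite A] in
theorem fsp_act (hC : ∀ τ ∈ C, ∀ g, P.act τ g ∈ C → φ g ∈ P0) (τ : T) (h : G) :
    fsp P A φ P0 C (P.act τ h) = (φ h)⁻¹ • fsp P A φ P0 C τ := by
  by_cases hex : ∃ g, P.act τ g ∈ C
  · obtain ⟨g, hg⟩ := hex
    rw [fsp_of P A φ P0 C hC τ g hg, fsp_of P A φ P0 C hC (P.act τ h) (h⁻¹ * g)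
      (by rwa [← P.act_mul, mul_inv_cancel_left]), Sum.smul_inl, MulAction.Quotient.smul_coe,
      smul_eq_mul, map_mul, map_inv]
  · push Not at hex
    rw [fsp_not P A φ P0 C τ hex, fsp_not P A φ P0 C (P.act τ h)
      (fun g => by rw [← P.act_mul]; exact hex _), Sum.smul_inr, MulAction.Quotient.smul_coe,
      Sum.inr.injEq, QuotientGroup.eq]
    trivial

theorem continuous_act_right (g : G) : Continuous fun τ : T => P.act τ g :=
  P.continuous_act.comp (continuous_id.prodMk continuous_const)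

theorem fsp_continuous (hCc : IsClopen C) (hC : ∀ τ ∈ C, ∀ g, P.act τ g ∈ C → φ g ∈ P0)
    (hC1 : ∀ τ ∈ C, ∀ g, φ g ∈ P0 → P.act τ g ∈ C) :
    Continuous (X := T) (Y := fs ((A ⧸ P0) ⊕ (A ⧸ (⊤ : Subgroup A)))) (fsp P A φ P0 C) := by
  refine (IsLocallyConstant.iff_eventually_eq _).mpr (fun τ => ?_) |>.continuous
  by_cases hex : ∃ g, P.act τ g ∈ C
  · obtain ⟨g, hg⟩ := hex
    have hU : IsOpen {σ : T | P.act σ g ∈ C} :=
      hCc.isOpen.preimage (continuous_act_right P g)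
    filter_upwards [hU.mem_nhds hg] with σ hσ
    rw [fsp_of P A φ P0 C hC σ g hσ, fsp_of P A φ P0 C hC τ g hg]
  · push Not at hex
    -- representatives of the fibres of `φ`
    have hr : ∀ a : A, ∃ g : G, (∃ g', φ g' = a) → φ g = a := by
      intro a
      by_cases h : ∃ g', φ g' = a
      · obtain ⟨g', h'⟩ := h
        exact ⟨g', fun _ => h'⟩
      · exact ⟨1, fun h' => absurd h' h⟩
    choose rep hrep using hr
    have hU : IsOpen (⋂ a : A, {σ : T | P.act σ (rep a) ∈ C}ᶜ) :=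
      isOpen_iInter_of_finite fun a =>
        (hCc.isClosed.preimage (continuous_act_right P (rep a))).isOpen_compl
    have hmem : τ ∈ (⋂ a : A, {σ : T | P.act σ (rep a) ∈ C}ᶜ) :=
      Set.mem_iInter.mpr fun a => hex _
    filter_upwards [hU.mem_nhds hmem] with σ hσ
    rw [fsp_not P A φ P0 C τ hex]
    refine fsp_not P A φ P0 C σ fun g hg => ?_
    refine Set.mem_iInter.mp hσ (φ g) ?_
    change P.act σ (rep (φ g)) ∈ C
    have h1 := hC1 _ hg (g⁻¹ * rep (φ g)) (by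
      rw [map_mul, map_inv, hrep (φ g) ⟨g, rfl⟩, inv_mul_cancel]; exact P0.one_mem)
    rwa [← P.act_mul, mul_inv_cancel_left] at h1

end phi

end SplitAux

open SplitAux in
theorem tSplit (hT : TClopen.{u, v}) : TSplit.{u, v} := by
  intro G T P hproj t A _ N _ _ θ φ hφ lam hlam hker
  have : DiscreteTopology A := inferInstance
  obtain ⟨C, hCc, htC, hC1, hC2⟩ := hT G T P t A φ hφ
  set P0 : Subgroup A := (P.stab t).map φ with hP0
  have : Finite (N ⋊[θ] A) := by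
    refine Finite.of_injective (fun b : N ⋊[θ] A => (b.left, b.right)) ?_
    intro a b h
    simp only [Prod.mk.injEq] at h
    exact SemidirectProduct.ext h.1 h.2
  set B : ProfiniteGrp.{0} := fg (N ⋊[θ] A) with hB
  let f : B →* A := SemidirectProduct.rightHom (φ := θ)
  let P' : Subgroup B := lam.range
  let A' : Subgroup B := (SemidirectProduct.inr (φ := θ) : A →* N ⋊[θ] A).range
  have hf : Function.Surjective f := SemidirectProduct.rightHom_surjective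
  have hP : P'.map f = P0 := by
    ext a
    constructor
    · rintro ⟨_, ⟨h, rfl⟩, rfl⟩
      exact ⟨h, h.2, (hlam h).symm⟩
    · rintro ⟨h, hh, rfl⟩
      exact ⟨lam ⟨h, hh⟩, ⟨⟨h, hh⟩, rfl⟩, hlam ⟨h, hh⟩⟩
  have hPi : ∀ x ∈ P', f x = 1 → x = 1 := by
    rintro _ ⟨h, rfl⟩ hx
    exact hker h ((hlam h).symm.trans hx)
  have hA : A'.map f = ⊤ := by
    rw [eq_top_iff]
    intro a _
    exact ⟨SemidirectProduct.inr a, ⟨a, rfl⟩, rfl⟩
  have hAi : ∀ x ∈ A', f x = 1 → x = 1 := by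
    rintro _ ⟨a, rfl⟩ hx
    have : a = 1 := hx
    rw [this]; exact map_one _
  let Φ : Pile.Hom P (mkPile A ((A ⧸ P0) ⊕ (A ⧸ (⊤ : Subgroup A)))) :=
    { toGrp := φ
      continuous_toGrp := hφ
      toSp := fsp P A φ P0 C
      continuous_toSp := fsp_continuous P A φ P0 C hCc hC2 hC1
      map_act := fun τ g => fsp_act P A φ P0 C hC2 τ g }
  obtain ⟨γ, hγ1, hγ2⟩ := hproj A B _ _ _ _ Φ (alpha f P' A' P0 hP hA) inferInstance
    inferInstance (alpha_epi f P' A' P0 hf hP hA hPi hAi)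
    (alpha_rigid f P' A' P0 hf hP hA hPi hAi)
  have ht := hγ2 t
  have hΦt : Φ.toSp t = (Sum.inl ((1 : A) : A ⧸ P0) : (A ⧸ P0) ⊕ (A ⧸ (⊤ : Subgroup A))) := by
    have := fsp_of P A φ P0 C hC2 t 1 (by rw [P.act_one]; exact htC)
    rw [map_one] at this
    exact this
  rw [hΦt] at ht
  have hex : ∀ y : (B ⧸ P') ⊕ (B ⧸ A'),
      Sum.map (cm f P' P0 hP.le) (cm f A' ⊤ hA.le) y = Sum.inl ((1 : A) : A ⧸ P0) →
      ∃ n : B, f n = 1 ∧ y = Sum.inl (n : B ⧸ P') := by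
    rintro (y | y) h
    · induction y using QuotientGroup.induction_on with
      | H b =>
        rw [Sum.map_inl, Sum.inl.injEq, cm_mk, QuotientGroup.eq, mul_one, ← map_inv] at h
        rw [← hP] at h
        obtain ⟨p, hp, hpb⟩ := h
        refine ⟨b * p, by rw [map_mul, hpb, map_inv, mul_inv_cancel], ?_⟩
        rw [Sum.inl.injEq, QuotientGroup.eq, inv_mul_cancel_left]
        exact hp
    · rw [Sum.map_inr] at h; cases h
  obtain ⟨n, hn, hy⟩ := hex (γ.toSp t) ht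
  refine ⟨(MulAut.conj n⁻¹).toMonoidHom.comp γ.toGrp, fun g => ?_, fun h => ?_⟩
  · change f (n⁻¹ * γ.toGrp g * n⁻¹⁻¹) = φ g
    rw [map_mul, map_mul, map_inv, map_inv, map_inv, hn]
    have := hγ1 g
    change f (γ.toGrp g) = φ g at this
    rw [this]; simp
  · change n⁻¹ * γ.toGrp h * n⁻¹⁻¹ = lam h
    have h1 : (γ.toGrp h : B) ∈ (mkPile B ((B ⧸ P') ⊕ (B ⧸ A'))).stab (γ.toSp t) := by
      rw [Pile.mem_stab, ← γ.map_act]
      exact congrArg _ h.2
    rw [hy] at h1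
    have h2 := (stab_inl P' A' n (γ.toGrp h)).mp h1
    rw [inv_inv]
    obtain ⟨l, hl⟩ : ∃ l : B, l = lam h := ⟨lam h, rfl⟩
    have h3 : l ∈ P' := ⟨h, hl.symm⟩
    have h4 := P'.mul_mem (P'.inv_mem h3) h2
    have h5 : f (l⁻¹ * (n⁻¹ * γ.toGrp h * n)) = 1 := by
      rw [map_mul, map_mul, map_mul, map_inv, map_inv, hn]
      have e1 := hγ1 h
      change f (γ.toGrp h) = φ h at e1
      have e2 : f l = φ h := by rw [hl]; exact hlam h
      rw [e1, e2]; simp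
    rw [← hl]
    exact (inv_mul_eq_one.mp (hPi _ h4 h5)).symm

end Pool.Agent.PPile
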