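import Pool.Agent.PPile.Abs2
import Pool.Agent.PPile.Hall
import Pool.Agent.PPile.Clopen
import Pool.Agent.PPile.Split

/-!
# From projective piles to the relative extension property
-/

namespace Pool.Agent.PPile

universe u v

open ProfiniteGrp ProfiniteCompletion SplitAux

/-- The canonical homomorphism to the profinite completion. -/
noncomputable def etaHom (F : Type u) [Group F] : F →* completion (GrpCat.of F) :=
  (eta (GrpCat.of F)).hom

theorem etaHom_dense (F : Type u) [Group F] : DenseRange (etaHom F) :=
  denseRange (GrpCat.of F)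

/-- A homomorphism to a finite group extends to the profinite completion. -/
theorem exists_ext {F : Type u} [Group F] (A : Type) [Group A] [Finite A] (φ : F →* A) :
    ∃ φ' : completion (GrpCat.of F) →* fg A, Continuous φ' ∧ ∀ g, φ' (etaHom F g) = φ g := by
  have hfi : φ.ker.FiniteIndex := by
    infer_instance
  let N : FiniteIndexNormalSubgroup (GrpCat.of F) := FiniteIndexNormalSubgroup.ofSubgroup φ.ker
  let k : (F ⧸ φ.ker) →* A := QuotientGroup.kerLift φ
  let φ' : completion (GrpCat.of F) →* fg A :=
    { toFun := fun x => k (x.1 N)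
      map_one' := map_one k
      map_mul' := fun x y => map_mul k _ _ }
  refine ⟨φ', ?_, ?_⟩
  · have h1 : Continuous fun x : completion (GrpCat.of F) => x.1 N :=
      (continuous_apply N).comp continuous_subtype_val
    have h2 : DiscreteTopology ((diagram (GrpCat.of F)).obj N) := ⟨rfl⟩
    let k' : (diagram (GrpCat.of F)).obj N → fg A := k
    have h3 : Continuous k' := continuous_of_discreteTopology
    exact h3.comp h1
  · intro g
    rfl

/-- M. Hall's theorem for an arbitrary free group. -/
theorem hall' {F : Type u} [Group F] [IsFreeGroup F] (H : Subgroup F) (hFG : H.FG) (Q : Type)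
    [Group Q] [Finite Q] (π : H →* Q) : ∃ (m : ℕ) (ρ : F →* Equiv.Perm (Fin m)),
      ∀ h : H, ρ h = 1 → π h = 1 := by
  obtain ⟨X, ⟨b⟩⟩ := IsFreeGroup.nonempty_basis (G := F)
  let e : H ≃* H.map b.repr.toMonoidHom := b.repr.subgroupMap H
  obtain ⟨m, ρ, hρ⟩ := tHall X (H.map b.repr.toMonoidHom) (fg_map _ hFG) Q
    (π.comp e.symm.toMonoidHom)
  refine ⟨m, ρ.comp b.repr.toMonoidHom, ?_⟩
  intro h hh
  have h1 := hρ (e h) hh
  have h2 : (π.comp e.symm.toMonoidHom) (e h) = π h := by
    change π (e.symm (e h)) = π h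
    rw [e.symm_apply_apply]
  rw [← h2]
  exact h1

theorem extHom_of_pile {F : Type u} [Group F] [IsFreeGroup F] (H : Subgroup F) (hFG : H.FG)
    (T : Profinite.{v}) (P : Pile (completion (GrpCat.of F)) T) (hP : P.IsProjective) (t : T)
    (ht : P.stab t = (H.map (etaHom F)).topologicalClosure) : ExtHom H := by
  classical
  intro A N _ _ _ _ θ φ lam hlam
  have hfin : Finite (N ⋊[θ] A) := Finite.of_equiv (N × A) SemidirectProduct.equivProd.symm
  obtain ⟨m, ρ, hρ⟩ := hall' H hFG (N ⋊[θ] A) lam
  let A' := A × Equiv.Perm (Fin m)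
  let φ1 : F →* A' := φ.prod ρ
  obtain ⟨φ', hφc, hφ'⟩ := exists_ext A' φ1
  let θ' : fg A' →* MulAut N := θ.comp (MonoidHom.fst A (Equiv.Perm (Fin m)))
  let lam1 : H →* N ⋊[θ'] (fg A') :=
    { toFun := fun h => ⟨(lam h).left, φ1 h⟩
      map_one' := by
        rw [map_one]
        apply SemidirectProduct.ext
        · rfl
        · exact map_one φ1
      map_mul' := by
        intro h h'
        apply SemidirectProduct.ext
        · rw [SemidirectProduct.mul_left, map_mul, SemidirectProduct.mul_left, hlam]
          rfl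
        · rw [SemidirectProduct.mul_right]
          exact map_mul φ1 _ _ }
  have hlam1 : ∀ h : H, φ1 h = 1 → lam1 h = 1 := by
    intro h hh
    have h1 : ρ h = 1 := congrArg Prod.snd hh
    have h2 := hρ h h1
    apply SemidirectProduct.ext
    · change (lam h).left = _
      rw [h2]
      rfl
    · exact hh
  have hlam1' : ∀ h h' : H, φ1 h = φ1 h' → lam1 h = lam1 h' := by
    intro h h' hh
    have h1 : φ1 ((h * h'⁻¹ : H) : F) = 1 := by
      rw [Subgroup.coe_mul, Subgroup.coe_inv, map_mul, map_inv, hh, mul_inv_cancel]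
    have h2 := hlam1 _ h1
    rw [map_mul, map_inv, mul_inv_eq_one] at h2
    exact h2
  -- approximation of the elements of the stabilizer
  have happ : ∀ g : P.stab t, ∃ h : H, φ' g = φ1 h := by
    rintro ⟨g, hg⟩
    rw [ht] at hg
    have hopen : IsOpen (φ' ⁻¹' {φ' g}) := (isOpen_discrete _).preimage hφc
    have hcl : g ∈ closure ((H.map (etaHom F) : Subgroup _) : Set (completion (GrpCat.of F))) := hg
    rw [mem_closure_iff] at hcl
    obtain ⟨_, h1, ⟨h, hh, rfl⟩⟩ := hcl _ hopen rfl
    refine ⟨⟨h, hh⟩, ?_⟩
    have h2 : φ' (etaHom F h) = φ' g := h1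
    change φ' g = φ1 h
    rw [← h2, hφ']
  choose c hc using happ
  let lam' : P.stab t →* N ⋊[θ'] (fg A') :=
    { toFun := fun g => lam1 (c g)
      map_one' := by
        apply hlam1
        rw [← hc]
        exact map_one φ'
      map_mul' := by
        intro g g'
        rw [← map_mul]
        apply hlam1'
        rw [← hc, Subgroup.coe_mul, Subgroup.coe_mul, map_mul, map_mul, hc, hc]
        rfl }
  obtain ⟨γ', h1, h2⟩ := tSplit tClopen (completion (GrpCat.of F)) T P hP t (fg A') N θ' φ' hφc lam'
    (by
      intro g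
      change (lam1 (c g)).right = φ' g
      rw [hc]
      rfl)
    (by
      intro g hg
      apply hlam1
      rw [← hc, hg]
      rfl)
  let κ : N ⋊[θ'] (fg A') →* N ⋊[θ] A :=
    SemidirectProduct.map (MonoidHom.id N) (MonoidHom.fst A (Equiv.Perm (Fin m)))
      (by
        intro a
        rfl)
  refine ⟨(κ.comp γ').comp (etaHom F), ?_, ?_⟩
  · intro g
    change ((γ' (etaHom F g)).right).1 = φ g
    rw [h1, hφ']
    rfl
  · intro h
    have h3 : etaHom F h ∈ P.stab t := by
      rw [ht]
      exact subset_closure ⟨h, h.2, rfl⟩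
    have h4 := h2 ⟨etaHom F h, h3⟩
    have h5 : lam' ⟨etaHom F h, h3⟩ = lam1 h := by
      apply hlam1'
      rw [← hc]
      exact hφ' h
    change κ (γ' (etaHom F h)) = lam h
    change γ' (etaHom F h) = _ at h4
    rw [h4, h5]
    apply SemidirectProduct.ext
    · rfl
    · exact (hlam h).symm

/-- **Main theorem.** -/
theorem main {F : Type u} [Group F] [IsFreeGroup F] (H : Subgroup F) (hFG : H.FG)
    (T : Profinite.{v}) (P : Pile (completion (GrpCat.of F)) T) (hP : P.IsProjective) (t : T)
    (ht : P.stab t = (H.map (etaHom F)).topologicalClosure) : IsFreeFactor H :=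
  (ff_general H hFG (extHom_of_pile H hFG T P hP t ht)).isFreeFactor

end Pool.Agent.PPile
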