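import Pool.Agent.PPile.Defs

/-!
# Whitehead automorphisms and the length of based words
-/

namespace Pool.Agent.PPile.Wh

variable {X : Type} [DecidableEq X]

open FreeGroup (of norm mk norm_mk_le invRev)

/-- The inverse letter. -/
def li (y : X × Bool) : X × Bool := (y.1, !y.2)

omit [DecidableEq X] in
@[simp] lemma li_li (y : X × Bool) : li (li y) = y := by simp [li]

omit [DecidableEq X] in
lemma li_ne (y : X × Bool) : li y ≠ y := by
  intro h
  have := congrArg Prod.snd h
  simp [li] at this

omit [DecidableEq X] in
@[simp] lemma li_fst (y : X × Bool) : (li y).1 = y.1 := rfl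

/-- A letter as an element of the free group. -/
def el (y : X × Bool) : FreeGroup X := mk [y]

omit [DecidableEq X] in
lemma el_li (y : X × Bool) : el (li y) = (el y)⁻¹ := by
  simp [el, li, invRev]

omit [DecidableEq X] in
lemma el_true (x : X) : el (x, true) = of x := rfl

omit [DecidableEq X] in
lemma el_false (x : X) : el (x, false) = (of x)⁻¹ := by
  have := el_li (x, true)
  simpa [li, el_true] using this

omit [DecidableEq X] in
lemma mk_cons (y : X × Bool) (w : List (X × Bool)) : mk (y :: w) = el y * mk w := by
  simp [el]

omit [DecidableEq X] in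
lemma mk_append' (v w : List (X × Bool)) : mk (v ++ w) = mk v * mk w := by
  simp

lemma norm_el (y : X × Bool) : norm (el y) ≤ 1 := by
  have := norm_mk_le (L₁ := [y])
  simpa [el] using this

section white

open Classical in
/-- `a` if `u ∈ A`, and `1` otherwise. -/
noncomputable def s (A : Set (Option (X × Bool))) (a : X × Bool) (u : Option (X × Bool)) :
    FreeGroup X := if u ∈ A then el a else 1

/-- The Whitehead endomorphism. -/
noncomputable def psi (A : Set (Option (X × Bool))) (a : X × Bool) : FreeGroup X →* FreeGroup X :=
  FreeGroup.lift fun x => if x = a.1 then of x else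
    s A a (some (x, true)) * of x * (s A a (some (x, false)))⁻¹

/-- Its inverse. -/
noncomputable def psi' (A : Set (Option (X × Bool))) (a : X × Bool) : FreeGroup X →* FreeGroup X :=
  FreeGroup.lift fun x => if x = a.1 then of x else
    (s A a (some (x, true)))⁻¹ * of x * s A a (some (x, false))

variable (A : Set (Option (X × Bool))) (a : X × Bool)

lemma psi_a : psi A a (el a) = el a := by
  obtain ⟨x, b⟩ := a
  cases b
  · rw [el_false, map_inv]; simp [psi]
  · rw [el_true]; simp [psi]

lemma psi'_a : psi' A a (el a) = el a := by
  obtain ⟨x, b⟩ := a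
  cases b
  · rw [el_false, map_inv]; simp [psi']
  · rw [el_true]; simp [psi']

lemma psi_s (u : Option (X × Bool)) : psi A a (s A a u) = s A a u := by
  unfold s
  split_ifs
  · exact psi_a A a
  · simp

lemma psi'_s (u : Option (X × Bool)) : psi' A a (s A a u) = s A a u := by
  unfold s
  split_ifs
  · exact psi'_a A a
  · simp

/-- The Whitehead automorphism. -/
noncomputable def psiEquiv : FreeGroup X ≃* FreeGroup X :=
  MonoidHom.toMulEquiv (psi A a) (psi' A a)
    (by
      ext x
      simp only [MonoidHom.comp_apply, MonoidHom.id_apply]
      by_cases h : x = a.1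
      · simp [psi, psi', h]
      · have h1 : psi A a (of x) = s A a (some (x, true)) * of x * (s A a (some (x, false)))⁻¹ := by
          simp [psi, h]
        have h2 : psi' A a (of x) = (s A a (some (x, true)))⁻¹ * of x * s A a (some (x, false)) := by
          simp [psi', h]
        rw [h1, map_mul, map_mul, map_inv, psi'_s, psi'_s, h2]
        group)
    (by
      ext x
      simp only [MonoidHom.comp_apply, MonoidHom.id_apply]
      by_cases h : x = a.1
      · simp [psi, psi', h]
      · have h1 : psi A a (of x) = s A a (some (x, true)) * of x * (s A a (some (x, false)))⁻¹ := by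
          simp [psi, h]
        have h2 : psi' A a (of x) = (s A a (some (x, true)))⁻¹ * of x * s A a (some (x, false)) := by
          simp [psi', h]
        rw [h2, map_mul, map_mul, map_inv, psi_s, psi_s, h1]
        group)

lemma psiEquiv_apply (g : FreeGroup X) : psiEquiv A a g = psi A a g := rfl

/-- The middle part of the image of a letter. -/
noncomputable def t (y : X × Bool) : FreeGroup X := if y = a ∨ y = li a then 1 else el y

omit [DecidableEq X] in
lemma fst_eq_iff (y : X × Bool) : y.1 = a.1 ↔ y = a ∨ y = li a := by
  obtain ⟨x, b⟩ := y
  obtain ⟨z, c⟩ := a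
  cases b <;> cases c <;> simp [li]

lemma psi_el (ha : some a ∈ A) (ha' : some (li a) ∉ A) (y : X × Bool) :
    psi A a (el y) = s A a (some y) * t a y * (s A a (some (li y)))⁻¹ := by
  by_cases h : y.1 = a.1
  · rcases (fst_eq_iff a y).1 h with rfl | rfl
    · simp [psi_a, t, s, ha, ha']
    · rw [el_li, map_inv, psi_a]
      simp [t, s, ha, ha']
  · have ht : t a y = el y := by
      unfold t
      rw [if_neg]
      rwa [← fst_eq_iff]
    rw [ht]
    obtain ⟨x, b⟩ := y
    cases b
    · rw [el_false, map_inv]
      simp only [psi, li]
      rw [FreeGroup.lift_apply_of, if_neg h]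
      simp [mul_assoc]
    · rw [el_true]
      simp only [psi, li]
      rw [FreeGroup.lift_apply_of, if_neg h]
      simp

open Classical in
/-- `1` if exactly one of `u`, `v` is in `A`. -/
noncomputable def xr (u v : Option (X × Bool)) : ℕ := if (u ∈ A ↔ v ∈ A) then 0 else 1

lemma norm_s (u v : Option (X × Bool)) : norm ((s A a u)⁻¹ * s A a v) ≤ xr A u v := by
  unfold s xr
  by_cases hu : u ∈ A <;> by_cases hv : v ∈ A <;> simp [hu, hv, norm_el]

/-- The turns of a word, with first side `u`. -/
def turns : Option (X × Bool) → List (X × Bool) → List (Option (X × Bool) × Option (X × Bool))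
  | u, [] => [(u, none)]
  | u, y :: w => (u, some y) :: turns (some (li y)) w

/-- The number of letters of `w` other than `a`, `a⁻¹`. -/
def others (w : List (X × Bool)) : ℕ :=
  (w.map fun y => if (y = a ∨ y = li a) then 0 else 1).sum

/-- The number of letters of `w` equal to `a` or `a⁻¹`. -/
def occ (w : List (X × Bool)) : ℕ :=
  (w.map fun y => if (y = a ∨ y = li a) then 1 else 0).sum

lemma norm_psi_le (ha : some a ∈ A) (ha' : some (li a) ∉ A) (hn : none ∉ A)
    (w : List (X × Bool)) (u : Option (X × Bool)) :
    norm ((s A a u)⁻¹ * psi A a (mk w)) ≤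
      ((turns u w).map fun p => xr A p.1 p.2).sum + others a w := by
  induction w generalizing u with
  | nil =>
    have h1 := norm_s A a u none
    have h2 : s A a none = 1 := by simp [s, hn]
    have h3 : (mk [] : FreeGroup X) = 1 := rfl
    rw [h2] at h1
    rw [h3, map_one]
    simp only [turns, List.map_cons, List.map_nil, List.sum_cons, List.sum_nil]
    omega
  | cons y w ih =>
    rw [mk_cons, map_mul, psi_el A a ha ha']
    have h1 : (s A a u)⁻¹ * (s A a (some y) * t a y * (s A a (some (li y)))⁻¹ * psi A a (mk w)) =
        ((s A a u)⁻¹ * s A a (some y)) * (t a y * ((s A a (some (li y)))⁻¹ * psi A a (mk w))) := by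
      group
    rw [h1]
    refine (FreeGroup.norm_mul_le _ _).trans ?_
    have h2 := FreeGroup.norm_mul_le (t a y) ((s A a (some (li y)))⁻¹ * psi A a (mk w))
    have h3 := norm_s A a u (some y)
    have h4 := ih (some (li y))
    have h5 : norm (t a y) ≤ if y = a ∨ y = li a then 0 else 1 := by
      unfold t
      split_ifs
      · simp
      · exact norm_el y
    have h6 : others a (y :: w) = (if y = a ∨ y = li a then 0 else 1) + others a w := by
      simp only [others, List.map_cons, List.sum_cons]
    simp only [turns, List.map_cons, List.sum_cons]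
    rw [h6]
    omega

/-- `1` if `u` is the letter `c`. -/
def eqc (c : X × Bool) (u : Option (X × Bool)) : ℕ := if u = some c then 1 else 0

lemma count_turns (c : X × Bool) (w : List (X × Bool)) (u : Option (X × Bool)) :
    ((turns u w).map fun p => eqc c p.1 + eqc c p.2).sum = eqc c u + occ c w := by
  induction w generalizing u with
  | nil => simp [turns, eqc, occ]
  | cons y w ih =>
    simp only [turns, List.map_cons, List.sum_cons, ih]
    have h1 : eqc c (some y) + eqc c (some (li y)) = if (y = c ∨ y = li c) then 1 else 0 := by
      unfold eqc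
      by_cases h : y = c
      · subst h
        have : ¬ li y = y := li_ne y
        simp [this]
      · by_cases h' : y = li c
        · subst h'
          simp [li_ne]
        · have h'' : ¬ li y = c := by
            intro h3
            apply h'
            rw [← h3, li_li]
          simp [h, h', h'']
    have h2 : occ c (y :: w) = (if (y = c ∨ y = li c) then 1 else 0) + occ c w := by
      simp only [occ, List.map_cons, List.sum_cons]
    rw [h2]
    omega

lemma occ_add (w : List (X × Bool)) : occ a w + others a w = w.length := by
  induction w with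
  | nil => simp [others, occ]
  | cons y w ih =>
    simp only [others, occ, List.map_cons, List.sum_cons, List.length_cons] at ih ⊢
    by_cases h : y = a ∨ y = li a
    · simp only [h, if_true]; omega
    · simp only [h, if_false]; omega

lemma occ_li (w : List (X × Bool)) : occ (li a) w = occ a w := by
  unfold occ
  congr 1
  apply List.map_congr_left
  intro y _
  rw [li_li]
  by_cases h1 : y = a <;> by_cases h2 : y = li a <;> simp [h1, h2]

/-- The length change: if every turn satisfies `xr ≤ eqc + eqc`, the length does not increase;
if moreover some turn is strict, it decreases. -/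
lemma norm_psi_lt (ha : some a ∈ A) (ha' : some (li a) ∉ A) (hn : none ∉ A) (c : X × Bool)
    (hc : c = a ∨ c = li a) (h : FreeGroup X)
    (hle : ∀ p ∈ turns none h.toWord, xr A p.1 p.2 ≤ eqc c p.1 + eqc c p.2) :
    norm (psi A a h) ≤ norm h ∧
      ((∃ p ∈ turns none h.toWord, xr A p.1 p.2 < eqc c p.1 + eqc c p.2) →
        norm (psi A a h) < norm h) := by
  have h1 := norm_psi_le A a ha ha' hn h.toWord none
  have h2 : s A a none = 1 := by simp [s, hn]
  rw [h2, inv_one, one_mul, FreeGroup.mk_toWord] at h1
  have h3 := count_turns c h.toWord none
  have h4 : occ c h.toWord = occ a h.toWord := by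
    rcases hc with rfl | rfl
    · rfl
    · exact occ_li a _
  have h5 := occ_add a h.toWord
  have h6 : norm h = h.toWord.length := rfl
  have h7 : eqc c none = 0 := by simp [eqc]
  have h8 := List.sum_le_sum (l := turns none h.toWord)
    (f := fun p => xr A p.1 p.2) (g := fun p => eqc c p.1 + eqc c p.2) hle
  refine ⟨by omega, fun hs => ?_⟩
  have h9 := List.sum_lt_sum (l := turns none h.toWord)
    (fun p => xr A p.1 p.2) (fun p => eqc c p.1 + eqc c p.2) hle hs
  omega

end white

end Pool.Agent.PPile.Wh
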