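import Pool.Agent.PPile.Wh1

/-!
# The cut vertex lemma for based words and invariant functions with finite coboundary
-/

namespace Pool.Agent.PPile.Wh

variable {X : Type} [DecidableEq X]

open FreeGroup (of norm mk norm_mk_le invRev IsReduced)

/-- The side behind a word. -/
def back (p : List (X × Bool)) : Option (X × Bool) := p.getLast?.map li

omit [DecidableEq X] in
lemma mem_turns (w : List (X × Bool)) (u : Option (X × Bool)) (q) (hq : q ∈ turns u w) :
    ∃ p1 q1, w = p1 ++ q1 ∧ ((p1 = [] ∧ q.1 = u) ∨ (p1 ≠ [] ∧ q.1 = back p1)) ∧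
      q.2 = q1.head? := by
  induction w generalizing u with
  | nil =>
    simp only [turns, List.mem_singleton] at hq
    subst hq
    exact ⟨[], [], rfl, Or.inl ⟨rfl, rfl⟩, rfl⟩
  | cons y w ih =>
    simp only [turns, List.mem_cons] at hq
    rcases hq with rfl | hq
    · exact ⟨[], y :: w, rfl, Or.inl ⟨rfl, rfl⟩, rfl⟩
    · obtain ⟨p1, q1, rfl, h1, h2⟩ := ih _ hq
      refine ⟨y :: p1, q1, rfl, Or.inr ⟨by simp, ?_⟩, h2⟩
      rcases h1 with ⟨rfl, h1⟩ | ⟨hne, h1⟩
      · rw [h1]; simp [back]
      · rw [h1]
        unfold back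
        rw [List.getLast?_cons_of_ne_nil hne]

omit [DecidableEq X] in
lemma mem_turns' (w : List (X × Bool)) (q) (hq : q ∈ turns none w) :
    ∃ p1 q1, w = p1 ++ q1 ∧ q.1 = back p1 ∧ q.2 = q1.head? := by
  obtain ⟨p1, q1, h0, h1, h2⟩ := mem_turns w none q hq
  refine ⟨p1, q1, h0, ?_, h2⟩
  rcases h1 with ⟨rfl, h1⟩ | ⟨_, h1⟩
  · rw [h1]; simp [back]
  · exact h1

omit [DecidableEq X] in
lemma exists_turn_snd (w : List (X × Bool)) (u : Option (X × Bool)) (y) (hy : y ∈ w) :
    ∃ q ∈ turns u w, q.2 = some y := by
  induction w generalizing u with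
  | nil => simp at hy
  | cons z w ih =>
    rcases List.mem_cons.1 hy with rfl | hy
    · exact ⟨(u, some y), by simp [turns], rfl⟩
    · obtain ⟨q, h1, h2⟩ := ih (some (li z)) hy
      exact ⟨q, by simp [turns, h1], h2⟩

omit [DecidableEq X] in
lemma head_mem_turns (w : List (X × Bool)) (u : Option (X × Bool)) :
    ∃ v, (u, v) ∈ turns u w := by
  cases w with
  | nil => exact ⟨none, by simp [turns]⟩
  | cons z w => exact ⟨some z, by simp [turns]⟩

omit [DecidableEq X] in
lemma exists_turn_fst (w : List (X × Bool)) (u : Option (X × Bool)) (y) (hy : y ∈ w) :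
    ∃ q ∈ turns u w, q.1 = some (li y) := by
  induction w generalizing u with
  | nil => simp at hy
  | cons z w ih =>
    rcases List.mem_cons.1 hy with rfl | hy
    · obtain ⟨v, hv⟩ := head_mem_turns w (some (li y))
      exact ⟨(some (li y), v), by simp [turns, hv], rfl⟩
    · obtain ⟨q, h1, h2⟩ := ih (some (li z)) hy
      exact ⟨q, by simp [turns, h1], h2⟩

/-- The edges of the based Whitehead graph. -/
def E (Ls : List (FreeGroup X)) (u v : Option (X × Bool)) : Prop :=
  ∃ h ∈ Ls, (u, v) ∈ turns none h.toWord ∨ (v, u) ∈ turns none h.toWord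

/-- `C` is closed relative to the letter `c`. -/
def Cond (Ls : List (FreeGroup X)) (c : X × Bool) (C : Set (Option (X × Bool))) : Prop :=
  none ∉ C ∧ some c ∉ C ∧ C.Nonempty ∧ ∀ u v, E Ls u v → u ∈ C → v ∈ C ∨ v = some c

omit [DecidableEq X] in
lemma isReduced_append {p r : List (X × Bool)} (hp : IsReduced p) (hr : IsReduced r)
    (h : ∀ c, back p = some c → r.head? ≠ some c) : IsReduced (p ++ r) := by
  unfold FreeGroup.IsReduced at *
  rw [List.isChain_append]
  refine ⟨hp, hr, ?_⟩
  intro x hx y hy
  have h1 : back p = some (li x) := by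
    unfold back
    rw [Option.mem_def] at hx
    rw [hx]; rfl
  intro hxy
  by_contra hne
  apply h (li x) h1
  rw [Option.mem_def] at hy
  rw [hy]
  congr 1
  obtain ⟨x1, x2⟩ := x
  obtain ⟨y1, y2⟩ := y
  simp only [li, Prod.mk.injEq] at *
  refine ⟨hxy.symm, ?_⟩
  cases x2 <;> cases y2 <;> simp_all

omit [DecidableEq X] in
lemma red_left {a b : List (X × Bool)} (h : IsReduced (a ++ b)) : IsReduced a := by
  unfold FreeGroup.IsReduced at *
  exact (List.isChain_append.1 h).1

omit [DecidableEq X] in
lemma red_right {a b : List (X × Bool)} (h : IsReduced (a ++ b)) : IsReduced b := by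
  unfold FreeGroup.IsReduced at *
  exact (List.isChain_append.1 h).2.1

omit [DecidableEq X] in
lemma not_reduced_back {p : List (X × Bool)} {c : X × Bool} (h : back p = some c) :
    ¬ IsReduced (p ++ [c]) := by
  intro hr
  unfold FreeGroup.IsReduced at hr
  rw [List.isChain_append] at hr
  unfold back at h
  rw [Option.map_eq_some_iff] at h
  obtain ⟨x, hx, rfl⟩ := h
  have := hr.2.2 x hx (li x) (by simp) rfl
  simp [li] at this

omit [DecidableEq X] in
lemma isReduced_invRev {p : List (X × Bool)} (hp : IsReduced p) : IsReduced (invRev p) := by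
  classical
  apply FreeGroup.IsReduced.of_reduce_eq
  rw [FreeGroup.reduce_invRev, hp.reduce_eq]

omit [DecidableEq X] in
lemma head_invRev (p : List (X × Bool)) : (invRev p).head? = back p := by
  unfold FreeGroup.invRev back
  rw [List.head?_reverse, List.getLast?_map]
  rfl

section cone

variable (Ls : List (FreeGroup X)) (f : FreeGroup X → ZMod 2)

/-- The cone statement at depth `k`. -/
def Q (f : FreeGroup X → ZMod 2) (k : ℕ) : Prop :=
  ∀ p : List (X × Bool), IsReduced p → p.length = k → ∀ w, IsReduced (p ++ w) →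
    f (mk (p ++ w)) = f (mk p)

lemma Q_far (R : ℕ) (hR : ∀ y : X × Bool, ∀ g, f (g * el y) ≠ f g → norm g < R) (k : ℕ)
    (hk : R ≤ k) : Q f k := by
  intro p _ hlen w
  induction w using List.reverseRecOn with
  | nil => intro _; simp
  | append_singleton w y ih =>
    intro hr
    have h1 : IsReduced (p ++ w) := red_left (b := [y]) (by simpa using hr)
    rw [← ih h1]
    have h2 : (mk (p ++ (w ++ [y])) : FreeGroup X) = mk (p ++ w) * el y := by
      simp [el]
    rw [h2]
    by_contra hne
    have h3 := hR y _ hne
    have h4 : norm (mk (p ++ w) : FreeGroup X) = (p ++ w).length := by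
      unfold FreeGroup.norm
      rw [FreeGroup.toWord_mk, h1.reduce_eq]
    rw [h4, List.length_append] at h3
    omega

lemma Q_down (hf : ∀ h ∈ Ls, ∀ g, f (g * h) = f g)
    (hA : ¬ ∃ c C, Cond Ls c C) (k : ℕ) (hQ : Q f (k + 1)) : Q f k := by
  classical
  intro p hp hlen
  -- values on the directions
  let F : Option (X × Bool) → ZMod 2 := fun u => match u with
    | none => f (mk p)
    | some d => f (mk (p ++ [d]))
  have hV : ∀ r : List (X × Bool), IsReduced (p ++ r) → f (mk (p ++ r)) = F r.head? := by
    intro r hr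
    cases r with
    | nil => simp [F]
    | cons d r =>
      have h1 : p ++ d :: r = (p ++ [d]) ++ r := by simp
      rw [h1] at hr ⊢
      exact hQ (p ++ [d]) (red_left hr) (by simp [hlen]) r hr
  set C : Set (Option (X × Bool)) :=
    {u | ∃ d, u = some d ∧ IsReduced (p ++ [d]) ∧ f (mk (p ++ [d])) ≠ f (mk p)} with hC
  have hmem : ∀ d, some d ∈ C ↔ IsReduced (p ++ [d]) ∧ f (mk (p ++ [d])) ≠ f (mk p) := by
    intro d
    constructor
    · rintro ⟨d', h1, h2⟩
      rw [Option.some.injEq] at h1
      rw [h1]; exact h2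
    · exact fun h => ⟨d, rfl, h⟩
  have hnone : none ∉ C := by
    rintro ⟨d, h1, _⟩
    exact absurd h1 (by simp)
  by_cases hne : C.Nonempty
  · exfalso
    obtain ⟨u, v, hE, hu, hv, hvb⟩ : ∃ u v, E Ls u v ∧ u ∈ C ∧ v ∉ C ∧
        ∀ c, back p = some c → v ≠ some c := by
      cases hb : back p with
      | some c =>
        have hc : some c ∉ C := by
          rw [hmem]
          intro h
          exact not_reduced_back hb h.1
        by_contra hcon
        apply hA
        refine ⟨c, C, hnone, hc, hne, ?_⟩
        intro u v hE hu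
        by_contra hv
        rw [not_or] at hv
        apply hcon
        refine ⟨u, v, hE, hu, hv.1, ?_⟩
        intro c' hc'
        rw [Option.some.injEq] at hc'
        rw [← hc']
        exact hv.2
      | none =>
        by_cases hall : ∃ c : X × Bool, some c ∉ C
        · obtain ⟨c, hc⟩ := hall
          by_contra hcon
          apply hA
          refine ⟨c, C, hnone, hc, hne, ?_⟩
          intro u v hE hu
          by_contra hv
          rw [not_or] at hv
          exact hcon ⟨u, v, hE, hu, hv.1, by intro c' hc'; simp at hc'⟩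
        · push Not at hall
          obtain ⟨u0, hu0⟩ := hne
          obtain ⟨c, rfl, -⟩ := hu0
          by_contra hcon
          apply hA
          refine ⟨c, C \ {some c}, fun h => hnone h.1, fun h => h.2 rfl,
            ⟨some (li c), hall _, ?_⟩, ?_⟩
          · simp only [Set.mem_singleton_iff, Option.some.injEq]
            exact li_ne c
          · intro u v hE hu
            by_contra hv
            rw [not_or] at hv
            refine hcon ⟨u, v, hE, hu.1, ?_, by intro c' hc'; simp at hc'⟩
            intro hvC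
            exact hv.1 ⟨hvC, hv.2⟩
    have hub : ∀ c, back p = some c → u ≠ some c := by
      rintro c hc rfl
      exact not_reduced_back hc ((hmem c).1 hu).1
    have key : ∀ u v : Option (X × Bool), (∀ c, back p = some c → u ≠ some c) →
        (∀ c, back p = some c → v ≠ some c) → (∃ h ∈ Ls, (u, v) ∈ turns none h.toWord) →
        F u = F v := by
      rintro u v hu hv ⟨h, hh, hq⟩
      obtain ⟨p1, q1, hw, h1, h2⟩ := mem_turns' _ _ hq
      simp only at h1 h2
      have hr : IsReduced (p1 ++ q1) := by rw [← hw]; exact FreeGroup.isReduced_toWord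
      have hr1 : IsReduced (invRev p1) := isReduced_invRev (red_left hr)
      have hr2 : IsReduced q1 := red_right hr
      have h3 := hV (invRev p1) (isReduced_append hp hr1 (by
        rw [head_invRev, ← h1]; exact hu))
      have h4 := hV q1 (isReduced_append hp hr2 (by rw [← h2]; exact hv))
      rw [head_invRev, ← h1] at h3
      rw [← h2] at h4
      rw [← h3, ← h4]
      have h5 : (mk (p ++ q1) : FreeGroup X) = mk (p ++ invRev p1) * h := by
        rw [← FreeGroup.mk_toWord (x := h), hw, mk_append', mk_append', mk_append',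
          ← FreeGroup.inv_mk]
        group
      rw [h5, hf h hh]
    have hF : F u = F v := by
      obtain ⟨h, hh, hq | hq⟩ := hE
      · exact key u v hub hvb ⟨h, hh, hq⟩
      · exact (key v u hvb hub ⟨h, hh, hq⟩).symm
    have hFu : F u ≠ f (mk p) := by
      obtain ⟨d, rfl, h1, h2⟩ := hu
      exact h2
    have hFv : F v = f (mk p) := by
      cases v with
      | none => rfl
      | some d =>
        by_contra h
        apply hv
        rw [hmem]
        refine ⟨isReduced_append hp FreeGroup.IsReduced.singleton ?_, h⟩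
        intro c hc
        simpa using hvb c hc
    exact hFu (hF.trans hFv)
  · intro w hw
    cases w with
    | nil => simp
    | cons d w =>
      rw [hV _ hw]
      simp only [List.head?_cons, F]
      by_contra h
      apply hne
      exact ⟨some d, (hmem d).2 ⟨red_left (b := w) (by simpa using hw), h⟩⟩

lemma cone [Finite X] (hf : ∀ h ∈ Ls, ∀ g, f (g * h) = f g)
    (hfin : ∀ w, {g | f (g * w) ≠ f g}.Finite)
    (hA : ¬ ∃ c C, Cond Ls c C) (g : FreeGroup X) : f g = f 1 := by
  classical
  have hS : (⋃ y : X × Bool, {g | f (g * el y) ≠ f g}).Finite :=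
    Set.finite_iUnion fun y => hfin (el y)
  obtain ⟨R, hR⟩ := (hS.image (FreeGroup.norm (α := X))).bddAbove
  have hR' : ∀ y : X × Bool, ∀ g, f (g * el y) ≠ f g → FreeGroup.norm g < R + 1 := by
    intro y g hg
    have : FreeGroup.norm g ≤ R := hR ⟨g, Set.mem_iUnion.2 ⟨y, hg⟩, rfl⟩
    omega
  have hall : ∀ j k : ℕ, R + 1 ≤ j + k → Q f k := by
    intro j
    induction j with
    | zero => intro k hk; exact Q_far f (R + 1) hR' k (by omega)
    | succ j ih =>
      intro k hk
      exact Q_down Ls f hf hA k (ih (k + 1) (by omega))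
  have h0 := hall (R + 1) 0 (by omega) [] FreeGroup.IsReduced.nil rfl g.toWord
    (by simpa using FreeGroup.isReduced_toWord)
  have h1 : (mk [] : FreeGroup X) = 1 := rfl
  rw [List.nil_append, FreeGroup.mk_toWord, h1] at h0
  exact h0

end cone

/-- Total length. -/
def tot (Ls : List (FreeGroup X)) : ℕ := (Ls.map (FreeGroup.norm (α := X))).sum

lemma shrink (Ls : List (FreeGroup X)) (A : Set (Option (X × Bool))) (a c : X × Bool)
    (ha : some a ∈ A) (ha' : some (li a) ∉ A) (hn : none ∉ A) (hc : c = a ∨ c = li a)
    (hle : ∀ h ∈ Ls, ∀ p ∈ turns none h.toWord, xr A p.1 p.2 ≤ eqc c p.1 + eqc c p.2)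
    (hs : ∃ h ∈ Ls, ∃ p ∈ turns none h.toWord, xr A p.1 p.2 < eqc c p.1 + eqc c p.2) :
    tot (Ls.map (psiEquiv A a)) < tot Ls := by
  unfold tot
  rw [List.map_map]
  apply List.sum_lt_sum
  · intro h hh
    exact (norm_psi_lt A a ha ha' hn c hc h (hle h hh)).1
  · obtain ⟨h, hh, hs⟩ := hs
    exact ⟨h, hh, (norm_psi_lt A a ha ha' hn c hc h (hle h hh)).2 hs⟩

omit [DecidableEq X] in
lemma mem_closure_of_letters (x : X) (w : List (X × Bool)) (hw : ∀ y ∈ w, y.1 ≠ x) :
    (mk w : FreeGroup X) ∈ Subgroup.closure (of '' {y | y ≠ x}) := by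
  induction w with
  | nil => exact one_mem _
  | cons y w ih =>
    rw [mk_cons]
    apply mul_mem
    · have h1 : (of y.1 : FreeGroup X) ∈ Subgroup.closure (of '' {y | y ≠ x}) :=
        Subgroup.subset_closure ⟨y.1, hw y (by simp), rfl⟩
      obtain ⟨z, b⟩ := y
      cases b
      · rw [el_false]; exact inv_mem h1
      · rw [el_true]; exact h1
    · exact ih fun y hy => hw y (by simp [hy])

lemma closed_case (Ls : List (FreeGroup X)) (C : Set (Option (X × Bool))) (hn : none ∉ C)
    (hne : C.Nonempty) (hcl : ∀ u v, E Ls u v → u ∈ C → v ∈ C) :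
    (∃ ψ : FreeGroup X ≃* FreeGroup X, tot (Ls.map ψ) < tot Ls) ∨
      ∃ x : X, ∀ h ∈ Ls, h ∈ Subgroup.closure (of '' {y | y ≠ x}) := by
  have hcl' : ∀ h ∈ Ls, ∀ p ∈ turns none h.toWord, (p.1 ∈ C ↔ p.2 ∈ C) := by
    intro h hh p hp
    exact ⟨fun h1 => hcl _ _ ⟨h, hh, Or.inl hp⟩ h1, fun h1 => hcl _ _ ⟨h, hh, Or.inr hp⟩ h1⟩
  by_cases hex : ∃ a : X × Bool, some a ∈ C ∧ some (li a) ∉ C
  · obtain ⟨a, ha, ha'⟩ := hex
    by_cases hocc : ∃ h ∈ Ls, ∃ y ∈ h.toWord, y.1 = a.1
    · left
      refine ⟨psiEquiv C a, shrink Ls C a a ha ha' hn (Or.inl rfl) ?_ ?_⟩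
      · intro h hh p hp
        have : xr C p.1 p.2 = 0 := by
          unfold xr
          rw [if_pos (hcl' h hh p hp)]
        omega
      · obtain ⟨h, hh, y, hy, hya⟩ := hocc
        refine ⟨h, hh, ?_⟩
        rcases (fst_eq_iff a y).1 hya with rfl | rfl
        · obtain ⟨p, hp, hp2⟩ := exists_turn_snd h.toWord none y hy
          refine ⟨p, hp, ?_⟩
          have : xr C p.1 p.2 = 0 := by
            unfold xr
            rw [if_pos (hcl' h hh p hp)]
          rw [this, hp2]
          simp [eqc]
        · obtain ⟨p, hp, hp2⟩ := exists_turn_fst h.toWord none _ hy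
          rw [li_li] at hp2
          refine ⟨p, hp, ?_⟩
          have : xr C p.1 p.2 = 0 := by
            unfold xr
            rw [if_pos (hcl' h hh p hp)]
          rw [this, hp2]
          simp [eqc]
    · right
      refine ⟨a.1, fun h hh => ?_⟩
      rw [← FreeGroup.mk_toWord (x := h)]
      apply mem_closure_of_letters
      intro y hy hya
      exact hocc ⟨h, hh, y, hy, hya⟩
  · push Not at hex
    right
    obtain ⟨u, hu⟩ := hne
    cases u with
    | none => exact absurd hu hn
    | some a =>
      refine ⟨a.1, fun h hh => ?_⟩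
      rw [← FreeGroup.mk_toWord (x := h)]
      apply mem_closure_of_letters
      -- no letter of `C` occurs
      have key : ∀ (w : List (X × Bool)) (u : Option (X × Bool)), u ∉ C →
          (∀ p ∈ turns u w, (p.1 ∈ C ↔ p.2 ∈ C)) → ∀ y ∈ w, some y ∉ C := by
        intro w
        induction w with
        | nil => intro u _ _ y hy; simp at hy
        | cons z w ih =>
          intro u hu hp
          have h1 : some z ∉ C := by
            have := hp (u, some z) (by simp [turns])
            simpa [hu] using this
          have h2 : some (li z) ∉ C := by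
            intro h3
            apply h1
            have := hex _ h3
            rwa [li_li] at this
          intro y hy
          rcases List.mem_cons.1 hy with rfl | hy
          · exact h1
          · exact ih (some (li z)) h2 (fun p hp' => hp p (by simp [turns, hp'])) y hy
      intro y hy hya
      have h1 := key h.toWord none hn (hcl' h hh) y hy
      rcases (fst_eq_iff a y).1 hya with rfl | rfl
      · exact h1 hu
      · exact h1 (hex _ hu)

lemma cond_case (Ls : List (FreeGroup X)) (c : X × Bool) (C : Set (Option (X × Bool)))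
    (hC : Cond Ls c C) :
    (∃ ψ : FreeGroup X ≃* FreeGroup X, tot (Ls.map ψ) < tot Ls) ∨
      ∃ x : X, ∀ h ∈ Ls, h ∈ Subgroup.closure (of '' {y | y ≠ x}) := by
  obtain ⟨hn, hc, hne, hcl⟩ := hC
  by_cases hci : some (li c) ∈ C
  · -- use `(C, c⁻¹)`
    by_cases hs : ∃ v, E Ls (some c) v ∧ v ∉ C ∧ v ≠ some c
    · left
      refine ⟨psiEquiv C (li c), shrink Ls C (li c) c hci (by rwa [li_li]) hn
        (Or.inr (li_li c).symm) ?_ ?_⟩
      · intro h hh p hp
        unfold xr
        split_ifs with h1
        · omega
        · have h2 := hcl p.1 p.2 ⟨h, hh, Or.inl hp⟩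
          have h3 := hcl p.2 p.1 ⟨h, hh, Or.inr hp⟩
          by_cases h4 : p.1 ∈ C
          · have h5 : p.2 ∉ C := fun h5 => h1 ⟨fun _ => h5, fun _ => h4⟩
            have h6 := (h2 h4).resolve_left h5
            rw [h6]
            simp [eqc]
          · have h5 : p.2 ∈ C := by
              by_contra h5
              exact h1 ⟨fun h => absurd h h4, fun h => absurd h h5⟩
            have h6 := (h3 h5).resolve_left h4
            rw [h6]
            simp [eqc]
      · obtain ⟨v, ⟨h, hh, hp | hp⟩, hv, hvc⟩ := hs
        · refine ⟨h, hh, _, hp, ?_⟩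
          simp [xr, eqc, hc, hv]
        · refine ⟨h, hh, _, hp, ?_⟩
          simp [xr, eqc, hc, hv]
    · -- `C ∪ {c}` is closed
      push Not at hs
      apply closed_case Ls (insert (some c) C) (by simp [hn]) (Set.insert_nonempty _ _)
      intro u v hE hu
      rcases hu with rfl | hu
      · by_contra hv
        rw [Set.mem_insert_iff, not_or] at hv
        exact hv.1 (hs v hE hv.2)
      · rcases hcl u v hE hu with h | h
        · exact Or.inr h
        · exact Or.inl h
  · -- use `(C ∪ {c}, c)`
    by_cases hs : ∃ v, E Ls (some c) v ∧ v ∈ C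
    · left
      refine ⟨psiEquiv (insert (some c) C) c, shrink Ls (insert (some c) C) c c (by simp)
        ?_ (by simp [hn]) (Or.inl rfl) ?_ ?_⟩
      · rw [Set.mem_insert_iff, not_or]
        refine ⟨?_, hci⟩
        rw [Option.some.injEq]
        exact li_ne c
      · intro h hh p hp
        unfold xr
        split_ifs with h1
        · omega
        · have h2 := hcl p.1 p.2 ⟨h, hh, Or.inl hp⟩
          have h3 := hcl p.2 p.1 ⟨h, hh, Or.inr hp⟩
          by_cases h4 : p.1 ∈ insert (some c) C
          · have h5 : p.2 ∉ insert (some c) C := fun h5 => h1 ⟨fun _ => h5, fun _ => h4⟩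
            rcases h4 with h4 | h4
            · rw [h4]; simp [eqc]
            · exfalso
              apply h5
              rcases h2 h4 with h | h
              · exact Or.inr h
              · exact Or.inl h
          · have h5 : p.2 ∈ insert (some c) C := by
              by_contra h5
              exact h1 ⟨fun h => absurd h h4, fun h => absurd h h5⟩
            rcases h5 with h5 | h5
            · rw [h5]; simp [eqc]
            · exfalso
              apply h4
              rcases h3 h5 with h | h
              · exact Or.inr h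
              · exact Or.inl h
      · obtain ⟨v, ⟨h, hh, hp | hp⟩, hv⟩ := hs
        · refine ⟨h, hh, _, hp, ?_⟩
          simp [xr, eqc, hv]
        · refine ⟨h, hh, _, hp, ?_⟩
          simp [xr, eqc, hv]
    · push Not at hs
      apply closed_case Ls C hn hne
      intro u v hE hu
      rcases hcl u v hE hu with h | h
      · exact h
      · exfalso
        subst h
        apply hs u _ hu
        obtain ⟨h, hh, hp⟩ := hE
        exact ⟨h, hh, hp.symm⟩

lemma whitehead_aux [Finite X] (n : ℕ) : ∀ (L : List (FreeGroup X)) (f : FreeGroup X → ZMod 2),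
    tot L = n → (∀ h ∈ L, ∀ g, f (g * h) = f g) → (∀ w, {g | f (g * w) ≠ f g}.Finite) →
    (∃ g, f g ≠ f 1) → ∃ ψ : FreeGroup X ≃* FreeGroup X, ∃ x : X,
      ∀ h ∈ L, ψ h ∈ Subgroup.closure (of '' {y | y ≠ x}) := by
  induction n using Nat.strong_induction_on with
  | _ n ih =>
    intro L f hn hf hfin hex
    by_cases hA : ∃ c C, Cond L c C
    · obtain ⟨c, C, hC⟩ := hA
      rcases cond_case L c C hC with ⟨ψ, hψ⟩ | ⟨x, hx⟩
      · obtain ⟨ψ', x, hx⟩ := ih (tot (L.map ψ)) (by omega) (L.map ψ) (fun g => f (ψ.symm g)) rfl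
          (by
            intro h hh g
            obtain ⟨h', hh', rfl⟩ := List.mem_map.1 hh
            simp [map_mul, hf h' hh'])
          (by
            intro w
            have h1 := (hfin (ψ.symm w)).image ψ
            refine h1.subset ?_
            intro g hg
            refine ⟨ψ.symm g, ?_, by simp⟩
            simpa [map_mul] using hg)
          (by
            obtain ⟨g, hg⟩ := hex
            exact ⟨ψ g, by simpa using hg⟩)
        refine ⟨ψ.trans ψ', x, fun h hh => ?_⟩
        exact hx (ψ h) (List.mem_map.2 ⟨h, hh, rfl⟩)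
      · exact ⟨MulEquiv.refl _, x, hx⟩
    · obtain ⟨g, hg⟩ := hex
      exact absurd (cone L f hf hfin hA g) hg

theorem whitehead : TWhitehead := by
  intro X _ L f hf hfin hex
  classical
  exact whitehead_aux (tot L) L f rfl hf hfin hex

end Pool.Agent.PPile.Wh
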